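import Mathlib

/-!
Words coded by permutations of five letters: the combinatorial induction for the
two-cut splitting problem.
-/

set_option autoImplicit false

namespace Pool.Agent.Q134.NK

abbrev S5 := Equiv.Perm (Fin 5)

abbrev Vec := Fin 5 → ℤ

/-- action of a permutation on a vector -/
def av (g : S5) (x : Vec) : Vec := fun a => x (g.symm a)

lemma av_one (x : Vec) : av 1 x = x := rfl

lemma av_mul (g h : S5) (x : Vec) : av (g * h) x = av g (av h x) := rfl

lemma av_inv_av (g : S5) (x : Vec) : av g⁻¹ (av g x) = x := by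
  rw [← av_mul, inv_mul_cancel, av_one]

lemma av_add (g : S5) (x y : Vec) : av g (x + y) = av g x + av g y := rfl

lemma av_sub (g : S5) (x y : Vec) : av g (x - y) = av g x - av g y := rfl

lemma av_smul (g : S5) (r : ℤ) (x : Vec) : av g (r • x) = r • av g x := rfl

lemma av_zero (g : S5) : av g 0 = 0 := rfl

/-- the base word -/
def bw (u : ℕ → S5) (L : ℕ) (n : ℕ) : S5 :=
  if hn : n = 0 ∨ L < 2 then 1 else bw u L (n / L) * u (n % L)
termination_by n
decreasing_by
  push Not at hn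
  exact Nat.div_lt_self (by omega) (by omega)

lemma bw_zero (u : ℕ → S5) (L : ℕ) : bw u L 0 = 1 := by
  rw [bw]; simp

lemma bw_block {u : ℕ → S5} {L : ℕ} (hL : 2 ≤ L) (h0 : u 0 = 1) (q j : ℕ) (hj : j < L) :
    bw u L (L * q + j) = bw u L q * u j := by
  by_cases hz : L * q + j = 0
  · have hq : q = 0 := by
      rcases Nat.eq_zero_or_pos q with h' | h'
      · exact h'
      · have : 0 < L * q := Nat.mul_pos (by omega) h'
        omega
    have hj' : j = 0 := by omega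
    subst hq; subst hj'
    rw [Nat.mul_zero, Nat.add_zero, bw_zero, h0, one_mul]
  · rw [bw]
    rw [dif_neg (by omega)]
    have e1 : (L * q + j) / L = q := by
      rw [Nat.add_comm, Nat.add_mul_div_left _ _ (by omega : 0 < L), Nat.div_eq_of_lt hj]
      omega
    have e2 : (L * q + j) % L = j := by
      rw [Nat.mul_add_mod, Nat.mod_eq_of_lt hj]
    rw [e1, e2]

/-- prefix sums of the vectors -/
def vs (w : ℕ → S5) (v : Vec) : ℕ → Vec
  | 0 => 0
  | n + 1 => vs w v n + av (w n) v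

lemma vs_add {w u : ℕ → S5} {v : Vec} {s L : ℕ} {g : S5} (hw : ∀ j < L, w (s + j) = g * u j) :
    ∀ i ≤ L, vs w v (s + i) = vs w v s + av g (vs u v i) := by
  intro i
  induction i with
  | zero => intro _; rw [Nat.add_zero]; simp [vs, av_zero]
  | succ i ih =>
    intro hi
    rw [← Nat.add_assoc, vs, ih (by omega), hw i (by omega), vs, av_add, av_mul, add_assoc]

lemma vs_mul {w u : ℕ → S5} {v : Vec} {L : ℕ} {c : ℤ}
    (hw : ∀ q, ∀ j < L, w (L * q + j) = w q * u j) (hX : vs u v L = c • v) (q : ℕ) :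
    vs w v (L * q) = c • vs w v q := by
  induction q with
  | zero => simp [vs]
  | succ q ih =>
    rw [Nat.mul_succ, vs_add (hw q) L le_rfl, ih, hX, vs, av_smul, smul_add]

lemma vs_block {w u : ℕ → S5} {v : Vec} {L : ℕ} {c : ℤ}
    (hw : ∀ q, ∀ j < L, w (L * q + j) = w q * u j) (hX : vs u v L = c • v) (q i : ℕ)
    (hi : i ≤ L) : vs w v (L * q + i) = c • vs w v q + av (w q) (vs u v i) := by
  rw [vs_add (hw q) i hi, vs_mul hw hX]

/-- unit vectors -/
def ee (b : Fin 5) : Vec := fun a => if a = b then 1 else 0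

lemma av_ee (g : S5) (b : Fin 5) : av g (ee b) = ee (g b) := by
  funext a
  unfold av ee
  by_cases h : a = g b
  · subst h; simp
  · rw [if_neg h, if_neg]
    intro h'
    apply h
    rw [← h', Equiv.apply_symm_apply]

/-- prefix letter counts -/
def ls (f : ℕ → Fin 5) : ℕ → Vec
  | 0 => 0
  | n + 1 => ls f n + ee (f n)

/-- the coded word -/
def cw (w : ℕ → S5) (B : ℕ → Fin 5) (m : ℕ) (p : ℕ) : Fin 5 := w (p / m) (B (p % m))

lemma cw_block {w : ℕ → S5} {B : ℕ → Fin 5} {m : ℕ} (q j : ℕ) (hj : j < m) :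
    cw w B m (m * q + j) = w q (B j) := by
  unfold cw
  have e1 : (m * q + j) / m = q := by
    rw [Nat.add_comm, Nat.add_mul_div_left _ _ (by omega : 0 < m), Nat.div_eq_of_lt hj]
    omega
  have e2 : (m * q + j) % m = j := by
    rw [Nat.mul_add_mod, Nat.mod_eq_of_lt hj]
  rw [e1, e2]

lemma ls_add {f : ℕ → Fin 5} {B : ℕ → Fin 5} {s m : ℕ} {g : S5}
    (hw : ∀ j < m, f (s + j) = g (B j)) :
    ∀ i ≤ m, ls f (s + i) = ls f s + av g (ls B i) := by
  intro i
  induction i with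
  | zero => intro _; rw [Nat.add_zero]; simp [ls, av_zero]
  | succ i ih =>
    intro hi
    rw [← Nat.add_assoc, ls, ih (by omega), hw i (by omega), ls, av_add, av_ee, add_assoc]

lemma av_const (g : S5) (r : ℤ) : av g (fun _ => r) = fun _ => r := rfl

lemma ls_mul {w : ℕ → S5} {B : ℕ → Fin 5} {m : ℕ} {v : Vec} {k : ℤ}
    (hB : (5 : ℤ) • ls B m = k • v + (fun _ => (m : ℤ))) (q : ℕ) :
    (5 : ℤ) • ls (cw w B m) (m * q) = k • vs w v q + (fun _ => ((m * q : ℕ) : ℤ)) := by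
  induction q with
  | zero => funext a; simp [ls, vs]
  | succ q ih =>
    rw [Nat.mul_succ, ls_add (fun j hj => cw_block q j hj) m le_rfl, smul_add, ih, ← av_smul, hB,
      av_add, av_const, av_smul, vs, smul_add]
    funext a
    simp only [Pi.add_apply, Pi.smul_apply, smul_eq_mul]
    push_cast
    ring

lemma ls_block {w : ℕ → S5} {B : ℕ → Fin 5} {m : ℕ} {v : Vec} {k : ℤ}
    (hB : (5 : ℤ) • ls B m = k • v + (fun _ => (m : ℤ))) (q o : ℕ) (ho : o ≤ m) (a : Fin 5) :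
    5 * ls (cw w B m) (m * q + o) a =
      k * vs w v q a + (m : ℤ) * q + 5 * ls B o ((w q).symm a) := by
  have h1 := ls_mul (w := w) hB q
  rw [ls_add (fun j hj => cw_block q j hj) o ho]
  have h2 := congrFun h1 a
  simp only [Pi.add_apply, Pi.smul_apply, smul_eq_mul] at h2 ⊢
  rw [mul_add, h2]
  unfold av
  push_cast
  ring

/-- second difference -/
def qd (f : ℕ → Vec) (q0 q1 q2 q3 : ℕ) : Vec := fun a => f q0 a - 2 * f q1 a + 2 * f q2 a - f q3 a

/-- contexts -/
structure Ct where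
  y1 : S5
  y2 : S5
  y3 : S5
  f0 : Bool
  f1 : Bool
  f2 : Bool
  t : ℤ
  d : Vec

/-- the context of four positions -/
def ctx (w : ℕ → S5) (v : Vec) (q0 q1 q2 q3 : ℕ) : Ct where
  y1 := (w q0)⁻¹ * w q1
  y2 := (w q0)⁻¹ * w q2
  y3 := (w q0)⁻¹ * w q3
  f0 := q0 == q1
  f1 := q1 == q2
  f2 := q2 == q3
  t := (q0 : ℤ) - 2 * q1 + 2 * q2 - q3
  d := av (w q0)⁻¹ (qd (vs w v) q0 q1 q2 q3)

/-- the vector of a child before normalisation -/
def cv (c : ℤ) (X : ℕ → Vec) (x : Ct) (i0 i1 i2 i3 : ℕ) : Vec := fun a =>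
  c * x.d a + X i0 a - 2 * X i1 (x.y1.symm a) + 2 * X i2 (x.y2.symm a) - X i3 (x.y3.symm a)

/-- the child of a context -/
def chd (u : ℕ → S5) (L : ℕ) (c : ℤ) (X : ℕ → Vec) (x : Ct) (i0 i1 i2 i3 : ℕ) : Ct where
  y1 := (u i0)⁻¹ * (x.y1 * u i1)
  y2 := (u i0)⁻¹ * (x.y2 * u i2)
  y3 := (u i0)⁻¹ * (x.y3 * u i3)
  f0 := x.f0 && i0 == i1
  f1 := x.f1 && i1 == i2
  f2 := x.f2 && i2 == i3
  t := (L : ℤ) * x.t + ((i0 : ℤ) - 2 * i1 + 2 * i2 - i3)
  d := av (u i0)⁻¹ (cv c X x i0 i1 i2 i3)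

lemma beq_block (L a b i j : ℕ) (hi : i < L) (hj : j < L) :
    ((L * a + i) == (L * b + j)) = ((a == b) && (i == j)) := by
  rw [Bool.eq_iff_iff]
  simp only [beq_iff_eq, Bool.and_eq_true]
  constructor
  · intro h
    have h1 : (L * a + i) / L = (L * b + j) / L := by rw [h]
    have h2 : (L * a + i) % L = (L * b + j) % L := by rw [h]
    rw [Nat.add_comm (L * a), Nat.add_comm (L * b), Nat.add_mul_div_left _ _ (by omega : 0 < L),
      Nat.add_mul_div_left _ _ (by omega : 0 < L), Nat.div_eq_of_lt hi, Nat.div_eq_of_lt hj] at h1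
    rw [Nat.mul_add_mod, Nat.mul_add_mod, Nat.mod_eq_of_lt hi, Nat.mod_eq_of_lt hj] at h2
    exact ⟨by omega, h2⟩
  · rintro ⟨rfl, rfl⟩; rfl

lemma ctx_block {w u : ℕ → S5} {v : Vec} {L : ℕ} {c : ℤ}
    (hw : ∀ q, ∀ j < L, w (L * q + j) = w q * u j) (hX : vs u v L = c • v)
    (q0 q1 q2 q3 i0 i1 i2 i3 : ℕ) (h0 : i0 < L) (h1 : i1 < L) (h2 : i2 < L) (h3 : i3 < L) :
    ctx w v (L * q0 + i0) (L * q1 + i1) (L * q2 + i2) (L * q3 + i3) =
      chd u L c (vs u v) (ctx w v q0 q1 q2 q3) i0 i1 i2 i3 := by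
  unfold ctx chd
  simp only [Ct.mk.injEq]
  refine ⟨?_, ?_, ?_, beq_block _ _ _ _ _ h0 h1, beq_block _ _ _ _ _ h1 h2,
    beq_block _ _ _ _ _ h2 h3, ?_, ?_⟩
  · rw [hw _ _ h0, hw _ _ h1]; group
  · rw [hw _ _ h0, hw _ _ h2]; group
  · rw [hw _ _ h0, hw _ _ h3]; group
  · push_cast; ring
  · rw [hw _ _ h0, mul_inv_rev, av_mul]
    congr 1
    funext a
    unfold cv qd
    rw [vs_block hw hX _ _ h0.le, vs_block hw hX _ _ h1.le, vs_block hw hX _ _ h2.le,
      vs_block hw hX _ _ h3.le]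
    unfold av
    simp only [Pi.add_apply, Pi.smul_apply, smul_eq_mul]
    have e0 : (w q0).symm ((w q0)⁻¹.symm a) = a := by
      change (w q0).symm (w q0 a) = a
      exact Equiv.symm_apply_apply _ _
    have e : ∀ g : S5, g.symm ((w q0)⁻¹.symm a) = ((w q0)⁻¹ * g).symm a := fun g => rfl
    rw [e0, e, e, e]
    ring

/-- values of the functionals -/
def val (s : ℤ) (H : Fin 5 → Fin 5 → ℤ) (x : Ct) (a b : Fin 5) : ℤ :=
  s * (x.d a - x.d b) + H a b + 2 * H (x.y1.symm b) (x.y1.symm a)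
    + 2 * H (x.y2.symm a) (x.y2.symm b) + H (x.y3.symm b) (x.y3.symm a)

/-- the terms of the functionals for the children -/
def Qf (s : ℤ) (H : Fin 5 → Fin 5 → ℤ) (u : ℕ → S5) (X : ℕ → Vec) (i : ℕ) (a b : Fin 5) : ℤ :=
  s * (X i a - X i b) + H ((u i).symm a) ((u i).symm b)

def cval (s c : ℤ) (Q : ℕ → Fin 5 → Fin 5 → ℤ) (x : Ct) (i0 i1 i2 i3 : ℕ) (a b : Fin 5) : ℤ :=
  s * c * (x.d a - x.d b) + Q i0 a b + 2 * Q i1 (x.y1.symm b) (x.y1.symm a)
    + 2 * Q i2 (x.y2.symm a) (x.y2.symm b) + Q i3 (x.y3.symm b) (x.y3.symm a)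

lemma val_chd (s c : ℤ) (H : Fin 5 → Fin 5 → ℤ) (u : ℕ → S5) (L : ℕ) (X : ℕ → Vec) (x : Ct)
    (i0 i1 i2 i3 : ℕ) (a b : Fin 5) :
    val s H (chd u L c X x i0 i1 i2 i3) ((u i0).symm a) ((u i0).symm b) =
      cval s c (Qf s H u X) x i0 i1 i2 i3 a b := by
  unfold val cval Qf chd cv
  have e : ∀ (g h : S5) (z : Fin 5), ((u i0)⁻¹ * (g * h)).symm ((u i0).symm z) =
      h.symm (g.symm z) := by
    intro g h z
    change (g * h).symm ((u i0) ((u i0).symm z)) = _
    rw [Equiv.apply_symm_apply]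
    rfl
  have e2 : ∀ (f : Vec) (z : Fin 5), av (u i0)⁻¹ f ((u i0).symm z) = f z := by
    intro f z
    change f ((u i0) ((u i0).symm z)) = f z
    rw [Equiv.apply_symm_apply]
  simp only [e, e2]
  ring

theorem near_mem {w u : ℕ → S5} {v : Vec} {L : ℕ} {c s : ℤ} {H : Fin 5 → Fin 5 → ℤ}
    (hL : 2 ≤ L) (hc : 0 < c) (hw0 : w 0 = 1)
    (hw : ∀ q, ∀ j < L, w (L * q + j) = w q * u j) (hX : vs u v L = c • v)
    (hH : ∀ i < L, ∀ a b, Qf s H u (vs u v) i a b ≤ c * H a b)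
    (T : Ct → Prop)
    (hroot : ∀ x : Ct, x.y1 = 1 → x.y2 = 1 → x.y3 = 1 → x.f0 = true → x.f1 = true → x.f2 = true →
      x.t = 0 → x.d = 0 → T x)
    (hstep : ∀ x, T x → ∀ i0 < L, ∀ i1 < L, ∀ i2 < L, ∀ i3 < L,
      (x.f0 = true → i0 ≤ i1) → (x.f1 = true → i1 ≤ i2) → (x.f2 = true → i2 ≤ i3) →
      |(L : ℤ) * x.t + ((i0 : ℤ) - 2 * i1 + 2 * i2 - i3)| ≤ 2 →
      (∀ a b, 0 ≤ cval s c (Qf s H u (vs u v)) x i0 i1 i2 i3 a b) →
      T (chd u L c (vs u v) x i0 i1 i2 i3)) :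
    ∀ n q0 q1 q2 q3 : ℕ, q3 = n → q0 ≤ q1 → q1 ≤ q2 → q2 ≤ q3 →
      |(q0 : ℤ) - 2 * q1 + 2 * q2 - q3| ≤ 2 →
      (∀ a b, 0 ≤ val s H (ctx w v q0 q1 q2 q3) a b) → T (ctx w v q0 q1 q2 q3) := by
  intro n
  induction n using Nat.strong_induction_on with
  | _ n ih =>
    intro q0 q1 q2 q3 hn h01 h12 h23 ht hval
    rcases Nat.eq_zero_or_pos q3 with h3 | h3
    · have e0 : q0 = 0 := by omega
      have e1 : q1 = 0 := by omega
      have e2 : q2 = 0 := by omega
      subst e0 e1 e2 h3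
      apply hroot
      · simp [ctx, hw0]
      · simp [ctx, hw0]
      · simp [ctx, hw0]
      · rfl
      · rfl
      · rfl
      · simp [ctx]
      · funext a
        simp [ctx, qd, av, vs]
    · have hLp : 0 < L := by omega
      have e : ∀ p, L * (p / L) + p % L = p := fun p => Nat.div_add_mod p L
      have hm : ∀ p, p % L < L := fun p => Nat.mod_lt p hLp
      have d01 : q0 / L ≤ q1 / L := Nat.div_le_div_right h01
      have d12 : q1 / L ≤ q2 / L := Nat.div_le_div_right h12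
      have d23 : q2 / L ≤ q3 / L := Nat.div_le_div_right h23
      have hord : ∀ p p' : ℕ, p ≤ p' → p / L = p' / L → p % L ≤ p' % L := by
        intro p p' hpp hdd
        have h1 := e p
        have h2 := e p'
        rw [hdd] at h1
        omega
      have key := ctx_block hw hX (q0 / L) (q1 / L) (q2 / L) (q3 / L) (q0 % L) (q1 % L) (q2 % L)
        (q3 % L) (hm _) (hm _) (hm _) (hm _)
      rw [e, e, e, e] at key
      have hcv : ∀ a b, 0 ≤ cval s c (Qf s H u (vs u v))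
          (ctx w v (q0 / L) (q1 / L) (q2 / L) (q3 / L)) (q0 % L) (q1 % L) (q2 % L) (q3 % L) a b := by
        intro a b
        rw [← val_chd s c H u L (vs u v), ← key]
        exact hval _ _
      have htt : (q0 : ℤ) - 2 * q1 + 2 * q2 - q3 = (L : ℤ) * (((q0 / L : ℕ) : ℤ) -
          2 * ((q1 / L : ℕ) : ℤ) + 2 * ((q2 / L : ℕ) : ℤ) - ((q3 / L : ℕ) : ℤ)) +
          (((q0 % L : ℕ) : ℤ) - 2 * ((q1 % L : ℕ) : ℤ) + 2 * ((q2 % L : ℕ) : ℤ) -
            ((q3 % L : ℕ) : ℤ)) := by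
        have f0 : (q0 : ℤ) = (L : ℤ) * ((q0 / L : ℕ) : ℤ) + ((q0 % L : ℕ) : ℤ) := by
          exact_mod_cast (e q0).symm
        have f1 : (q1 : ℤ) = (L : ℤ) * ((q1 / L : ℕ) : ℤ) + ((q1 % L : ℕ) : ℤ) := by
          exact_mod_cast (e q1).symm
        have f2 : (q2 : ℤ) = (L : ℤ) * ((q2 / L : ℕ) : ℤ) + ((q2 % L : ℕ) : ℤ) := by
          exact_mod_cast (e q2).symm
        have f3 : (q3 : ℤ) = (L : ℤ) * ((q3 / L : ℕ) : ℤ) + ((q3 % L : ℕ) : ℤ) := by
          exact_mod_cast (e q3).symm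
        linear_combination f0 - 2 * f1 + 2 * f2 - f3
      have hpar : T (ctx w v (q0 / L) (q1 / L) (q2 / L) (q3 / L)) := by
        refine ih (q3 / L) ?_ _ _ _ _ rfl d01 d12 d23 ?_ ?_
        · rw [← hn]; exact Nat.div_lt_self h3 (by omega)
        · rw [htt] at ht
          rw [abs_le] at ht ⊢
          have b0 : ((q0 % L : ℕ) : ℤ) < L := by exact_mod_cast hm q0
          have b1 : ((q1 % L : ℕ) : ℤ) < L := by exact_mod_cast hm q1
          have b2 : ((q2 % L : ℕ) : ℤ) < L := by exact_mod_cast hm q2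
          have b3 : ((q3 % L : ℕ) : ℤ) < L := by exact_mod_cast hm q3
          have c0 : (0 : ℤ) ≤ ((q0 % L : ℕ) : ℤ) := by positivity
          have c1 : (0 : ℤ) ≤ ((q1 % L : ℕ) : ℤ) := by positivity
          have c2 : (0 : ℤ) ≤ ((q2 % L : ℕ) : ℤ) := by positivity
          have c3 : (0 : ℤ) ≤ ((q3 % L : ℕ) : ℤ) := by positivity
          have hL' : (2 : ℤ) ≤ L := by exact_mod_cast hL
          constructor
          · by_contra hcon
            push Not at hcon
            nlinarith [ht.1, ht.2]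
          · by_contra hcon
            push Not at hcon
            nlinarith [ht.1, ht.2]
        · intro a b
          have h1 := hcv a b
          unfold cval at h1
          have g0 := hH (q0 % L) (hm _) a b
          set x := ctx w v (q0 / L) (q1 / L) (q2 / L) (q3 / L) with hx
          have g1 := hH (q1 % L) (hm _) (x.y1.symm b) (x.y1.symm a)
          have g2 := hH (q2 % L) (hm _) (x.y2.symm a) (x.y2.symm b)
          have g3 := hH (q3 % L) (hm _) (x.y3.symm b) (x.y3.symm a)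
          unfold val
          by_contra hcon
          push Not at hcon
          have : c * (s * (x.d a - x.d b) + H a b + 2 * H (x.y1.symm b) (x.y1.symm a) +
              2 * H (x.y2.symm a) (x.y2.symm b) + H (x.y3.symm b) (x.y3.symm a)) < 0 :=
            mul_neg_of_pos_of_neg hc hcon
          nlinarith [this]
      rw [key]
      refine hstep _ hpar _ (hm _) _ (hm _) _ (hm _) _ (hm _) ?_ ?_ ?_ ?_ hcv
      · intro hf
        simp only [ctx, beq_iff_eq] at hf
        exact hord _ _ h01 hf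
      · intro hf
        simp only [ctx, beq_iff_eq] at hf
        exact hord _ _ h12 hf
      · intro hf
        simp only [ctx, beq_iff_eq] at hf
        exact hord _ _ h23 hf
      · rw [htt] at ht
        exact ht

end Pool.Agent.Q134.NK
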