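import Pool.Agent.Q134.NK.Core
import Pool.Agent.TH362.Neck.ToZ

/-!
The coded word has no nontrivial zero of the second difference.
-/

set_option autoImplicit false

namespace Pool.Agent.Q134.NK

open Pool.Agent.TH362.Neck

/-- the offset part of the second difference in a context -/
def ov (B : ℕ → Fin 5) (x : Ct) (o0 o1 o2 o3 : ℕ) (a : Fin 5) : ℤ :=
  ls B o0 a - 2 * ls B o1 (x.y1.symm a) + 2 * ls B o2 (x.y2.symm a) - ls B o3 (x.y3.symm a)

lemma ls_sum (B : ℕ → Fin 5) (o : ℕ) : ∑ a, ls B o a = o := by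
  induction o with
  | zero => simp [ls]
  | succ o ih =>
    rw [ls]
    simp only [Pi.add_apply]
    rw [Finset.sum_add_distrib, ih]
    have : ∑ a, ee (B o) a = 1 := by
      unfold ee
      simp
    rw [this]
    push_cast
    ring

lemma av_sum (g : S5) (x : Vec) : ∑ a, x (g.symm a) = ∑ a, x a :=
  Equiv.sum_comp g.symm x

theorem no_zero {w : ℕ → S5} {B : ℕ → Fin 5} {v : Vec} {m : ℕ} {k s : ℤ}
    {H : Fin 5 → Fin 5 → ℤ} (hm : 0 < m) (hk : 0 < k) (hs : 0 ≤ s)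
    (hB : (5 : ℤ) • ls B m = k • v + (fun _ => (m : ℤ)))
    (hHB : ∀ o < m, ∀ a b, 5 * s * (ls B o a - ls B o b) ≤ k * H a b)
    (T : Ct → Prop)
    (hT : ∀ q0 q1 q2 q3 : ℕ, q0 ≤ q1 → q1 ≤ q2 → q2 ≤ q3 →
      |(q0 : ℤ) - 2 * q1 + 2 * q2 - q3| ≤ 2 →
      (∀ a b, 0 ≤ val s H (ctx w v q0 q1 q2 q3) a b) → T (ctx w v q0 q1 q2 q3))
    (hfin : ∀ x, T x → ∀ o0 < m, ∀ o1 < m, ∀ o2 < m, ∀ o3 < m,
      (x.f0 = true → o0 ≤ o1) → (x.f1 = true → o1 ≤ o2) → (x.f2 = true → o2 ≤ o3) →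
      ¬ (x.f0 = true ∧ x.f1 = true ∧ x.f2 = true ∧ o0 = o3) →
      ¬ ∀ a, k * x.d a + m * x.t + 5 * ov B x o0 o1 o2 o3 a = 0)
    (p0 p1 p2 p3 : ℕ) (h01 : p0 ≤ p1) (h12 : p1 ≤ p2) (h23 : p2 ≤ p3) (h03 : p0 < p3) :
    ∃ a, qd (ls (cw w B m)) p0 p1 p2 p3 a ≠ 0 := by
  by_contra hcon
  push Not at hcon
  have e : ∀ p, m * (p / m) + p % m = p := fun p => Nat.div_add_mod p m
  have hlt : ∀ p, p % m < m := fun p => Nat.mod_lt p hm
  have d01 : p0 / m ≤ p1 / m := Nat.div_le_div_right h01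
  have d12 : p1 / m ≤ p2 / m := Nat.div_le_div_right h12
  have d23 : p2 / m ≤ p3 / m := Nat.div_le_div_right h23
  have hord : ∀ p p' : ℕ, p ≤ p' → p / m = p' / m → p % m ≤ p' % m := by
    intro p p' hpp hdd
    have h1 := e p
    have h2 := e p'
    rw [hdd] at h1
    omega
  set x := ctx w v (p0 / m) (p1 / m) (p2 / m) (p3 / m) with hx
  -- the equation in the frame of the first block
  have hlb : ∀ p (a : Fin 5), 5 * ls (cw w B m) p a =
      k * vs w v (p / m) a + (m : ℤ) * ((p / m : ℕ) : ℤ) +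
        5 * ls B (p % m) ((w (p / m)).symm a) := by
    intro p a
    have h1 := ls_block (w := w) hB (p / m) (p % m) (hlt p).le a
    rw [e] at h1
    exact h1
  have heq : ∀ a, k * x.d a + m * x.t + 5 * ov B x (p0 % m) (p1 % m) (p2 % m) (p3 % m) a = 0 := by
    intro a
    have h1 := hcon (w (p0 / m) a)
    unfold qd at h1
    have h2 : 5 * (ls (cw w B m) p0 (w (p0 / m) a) - 2 * ls (cw w B m) p1 (w (p0 / m) a) +
        2 * ls (cw w B m) p2 (w (p0 / m) a) - ls (cw w B m) p3 (w (p0 / m) a)) = 0 := by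
      rw [h1]; ring
    have g0 := hlb p0 (w (p0 / m) a)
    have g1 := hlb p1 (w (p0 / m) a)
    have g2 := hlb p2 (w (p0 / m) a)
    have g3 := hlb p3 (w (p0 / m) a)
    rw [Equiv.symm_apply_apply] at g0
    have ed : x.d a = vs w v (p0 / m) (w (p0 / m) a) - 2 * vs w v (p1 / m) (w (p0 / m) a) +
        2 * vs w v (p2 / m) (w (p0 / m) a) - vs w v (p3 / m) (w (p0 / m) a) := rfl
    have et : x.t = ((p0 / m : ℕ) : ℤ) - 2 * ((p1 / m : ℕ) : ℤ) + 2 * ((p2 / m : ℕ) : ℤ) -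
        ((p3 / m : ℕ) : ℤ) := rfl
    have ey1 : x.y1.symm a = (w (p1 / m)).symm (w (p0 / m) a) := rfl
    have ey2 : x.y2.symm a = (w (p2 / m)).symm (w (p0 / m) a) := rfl
    have ey3 : x.y3.symm a = (w (p3 / m)).symm (w (p0 / m) a) := rfl
    unfold ov
    rw [ed, et, ey1, ey2, ey3]
    linear_combination h2 - g0 + 2 * g1 - 2 * g2 + g3
  -- the length
  have hlen : (m : ℤ) * x.t + (((p0 % m : ℕ) : ℤ) - 2 * ((p1 % m : ℕ) : ℤ) +
      2 * ((p2 % m : ℕ) : ℤ) - ((p3 % m : ℕ) : ℤ)) = 0 := by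
    have f0 : (p0 : ℤ) = (m : ℤ) * ((p0 / m : ℕ) : ℤ) + ((p0 % m : ℕ) : ℤ) := by
      exact_mod_cast (e p0).symm
    have f1 : (p1 : ℤ) = (m : ℤ) * ((p1 / m : ℕ) : ℤ) + ((p1 % m : ℕ) : ℤ) := by
      exact_mod_cast (e p1).symm
    have f2 : (p2 : ℤ) = (m : ℤ) * ((p2 / m : ℕ) : ℤ) + ((p2 % m : ℕ) : ℤ) := by
      exact_mod_cast (e p2).symm
    have f3 : (p3 : ℤ) = (m : ℤ) * ((p3 / m : ℕ) : ℤ) + ((p3 % m : ℕ) : ℤ) := by
      exact_mod_cast (e p3).symm
    have hs0 : ∑ a, qd (ls (cw w B m)) p0 p1 p2 p3 a = 0 :=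
      Finset.sum_eq_zero (fun a _ => hcon a)
    unfold qd at hs0
    rw [Finset.sum_sub_distrib, Finset.sum_add_distrib, Finset.sum_sub_distrib,
      ← Finset.mul_sum, ← Finset.mul_sum, ls_sum, ls_sum, ls_sum, ls_sum] at hs0
    have et : x.t = ((p0 / m : ℕ) : ℤ) - 2 * ((p1 / m : ℕ) : ℤ) + 2 * ((p2 / m : ℕ) : ℤ) -
        ((p3 / m : ℕ) : ℤ) := rfl
    rw [et]
    linear_combination hs0 - f0 + 2 * f1 - 2 * f2 + f3
  have ht : |x.t| ≤ 2 := by
    have b0 : ((p0 % m : ℕ) : ℤ) < m := by exact_mod_cast hlt p0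
    have b1 : ((p1 % m : ℕ) : ℤ) < m := by exact_mod_cast hlt p1
    have b2 : ((p2 % m : ℕ) : ℤ) < m := by exact_mod_cast hlt p2
    have b3 : ((p3 % m : ℕ) : ℤ) < m := by exact_mod_cast hlt p3
    have c0 : (0 : ℤ) ≤ ((p0 % m : ℕ) : ℤ) := by positivity
    have c1 : (0 : ℤ) ≤ ((p1 % m : ℕ) : ℤ) := by positivity
    have c2 : (0 : ℤ) ≤ ((p2 % m : ℕ) : ℤ) := by positivity
    have c3 : (0 : ℤ) ≤ ((p3 % m : ℕ) : ℤ) := by positivity
    have hm' : (0 : ℤ) < m := by exact_mod_cast hm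
    rw [abs_le]
    constructor
    · by_contra hh
      push Not at hh
      nlinarith
    · by_contra hh
      push Not at hh
      nlinarith
  have hval : ∀ a b, 0 ≤ val s H x a b := by
    intro a b
    have g0 := hHB (p0 % m) (hlt _) a b
    have g1 := hHB (p1 % m) (hlt _) (x.y1.symm b) (x.y1.symm a)
    have g2 := hHB (p2 % m) (hlt _) (x.y2.symm a) (x.y2.symm b)
    have g3 := hHB (p3 % m) (hlt _) (x.y3.symm b) (x.y3.symm a)
    have ea := heq a
    have eb := heq b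
    unfold ov at ea eb
    have hkey : k * val s H x a b ≥ 0 := by
      unfold val
      have : s * (k * (x.d a - x.d b) + 5 * ((ls B (p0 % m) a - ls B (p0 % m) b)
          + 2 * (ls B (p1 % m) (x.y1.symm b) - ls B (p1 % m) (x.y1.symm a))
          + 2 * (ls B (p2 % m) (x.y2.symm a) - ls B (p2 % m) (x.y2.symm b))
          + (ls B (p3 % m) (x.y3.symm b) - ls B (p3 % m) (x.y3.symm a)))) = 0 := by
        have : k * (x.d a - x.d b) + 5 * ((ls B (p0 % m) a - ls B (p0 % m) b)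
          + 2 * (ls B (p1 % m) (x.y1.symm b) - ls B (p1 % m) (x.y1.symm a))
          + 2 * (ls B (p2 % m) (x.y2.symm a) - ls B (p2 % m) (x.y2.symm b))
          + (ls B (p3 % m) (x.y3.symm b) - ls B (p3 % m) (x.y3.symm a))) = 0 := by
          linear_combination ea - eb
        rw [this, mul_zero]
      nlinarith
    by_contra hh
    push Not at hh
    nlinarith [mul_neg_of_pos_of_neg hk hh]
  have hTx : T x := hT _ _ _ _ d01 d12 d23 ht hval
  refine hfin x hTx _ (hlt p0) _ (hlt p1) _ (hlt p2) _ (hlt p3) ?_ ?_ ?_ ?_ heq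
  · intro hf
    have : (p0 / m == p1 / m) = true := hf
    exact hord _ _ h01 (by simpa using this)
  · intro hf
    have : (p1 / m == p2 / m) = true := hf
    exact hord _ _ h12 (by simpa using this)
  · intro hf
    have : (p2 / m == p3 / m) = true := hf
    exact hord _ _ h23 (by simpa using this)
  · rintro ⟨hf0, hf1, hf2, hoo⟩
    have g0 : p0 / m = p1 / m := by
      have : (p0 / m == p1 / m) = true := hf0
      simpa using this
    have g1 : p1 / m = p2 / m := by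
      have : (p1 / m == p2 / m) = true := hf1
      simpa using this
    have g2 : p2 / m = p3 / m := by
      have : (p2 / m == p3 / m) = true := hf2
      simpa using this
    have h1 := e p0
    have h2 := e p3
    rw [g0, g1, g2, hoo, h2] at h1
    omega

/-- the coded word as a word of natural numbers -/
def nw (w : ℕ → S5) (B : ℕ → Fin 5) (m : ℕ) (p : ℕ) : ℕ := (cw w B m p : ℕ)

lemma cnt_nw (w : ℕ → S5) (B : ℕ → Fin 5) (m : ℕ) (a : Fin 5) (p : ℕ) :
    cnt (nw w B m) a p = ls (cw w B m) p a := by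
  induction p with
  | zero => simp [cnt, ls]
  | succ p ih =>
    rw [cnt, ih, ls]
    simp only [Pi.add_apply]
    congr 1
    unfold ee nw
    by_cases h : a = cw w B m p
    · rw [if_pos h, if_pos (by rw [h])]
    · rw [if_neg h, if_neg]
      intro h'
      exact h (Fin.ext h'.symm)

theorem avoid {w : ℕ → S5} {B : ℕ → Fin 5} {m : ℕ}
    (h : ∀ p0 p1 p2 p3 : ℕ, p0 ≤ p1 → p1 ≤ p2 → p2 ≤ p3 → p0 < p3 →
      ∃ a, qd (ls (cw w B m)) p0 p1 p2 p3 a ≠ 0) :
    Pool.Agent.H257R3.Neck.Avoidable 2 1 5 := by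
  refine avoidable_of_word (nw w B m) (fun n => (cw w B m n).isLt) ?_
  intro p0 p1 p2 p3 h01 h12 h23 h03
  obtain ⟨a, ha⟩ := h p0 p1 p2 p3 h01 h12 h23 h03
  refine ⟨a, a.isLt, ?_⟩
  unfold dd
  rw [cnt_nw, cnt_nw, cnt_nw, cnt_nw]
  exact ha

end Pool.Agent.Q134.NK
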