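import Pool.Agent.Q134.NK.Tab

/-!
Packed numbers.
-/

set_option autoImplicit false

namespace Pool.Agent.Q134.NK

open Finset

/-- packed number with fields of width `w` -/
def pkn (w : ℕ) (x : ℕ → ℕ) (n : ℕ) : ℕ := ∑ j ∈ range n, x j * 2 ^ (w * j)

lemma pkn_lt (w : ℕ) (x : ℕ → ℕ) (n : ℕ) (hx : ∀ j < n, x j < 2 ^ w) : pkn w x n < 2 ^ (w * n) := by
  induction n with
  | zero => simp [pkn]
  | succ n ih =>
    have h1 := ih (fun j hj => hx j (by omega))
    have h2 := hx n (by omega)
    unfold pkn at h1 ⊢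
    rw [Finset.sum_range_succ, Nat.mul_succ, pow_add]
    have : x n * 2 ^ (w * n) + 2 ^ (w * n) ≤ 2 ^ (w * n) * 2 ^ w := by
      have h3 : x n + 1 ≤ 2 ^ w := h2
      calc x n * 2 ^ (w * n) + 2 ^ (w * n) = (x n + 1) * 2 ^ (w * n) := by ring
        _ ≤ 2 ^ w * 2 ^ (w * n) := Nat.mul_le_mul_right _ h3
        _ = 2 ^ (w * n) * 2 ^ w := by ring
    omega

lemma testBit_pkn (w : ℕ) (hw : 0 < w) (x : ℕ → ℕ) (n : ℕ) (hx : ∀ j < n, x j < 2 ^ w) (i : ℕ) :
    (pkn w x n).testBit i = (decide (i / w < n) && (x (i / w)).testBit (i % w)) := by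
  induction n with
  | zero => simp [pkn]
  | succ n ih =>
    have hlt := pkn_lt w x n (fun j hj => hx j (by omega))
    have e : pkn w x (n + 1) = 2 ^ (w * n) * x n + pkn w x n := by
      unfold pkn
      rw [Finset.sum_range_succ]
      ring
    rw [e, Nat.testBit_two_pow_mul_add _ hlt]
    by_cases h : i < w * n
    · rw [if_pos h, ih (fun j hj => hx j (by omega))]
      have h1 : i / w < n := by
        rw [Nat.div_lt_iff_lt_mul hw]; rw [Nat.mul_comm]; exact h
      have h2 : i / w < n + 1 := by omega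
      simp [h1, h2]
    · rw [if_neg h]
      push Not at h
      by_cases h3 : i / w = n
      · have h4 : i - w * n = i % w := by
          have := Nat.div_add_mod i w
          rw [h3] at this
          omega
        rw [h4, h3]
        simp
      · have h5 : n < i / w := by
          have : n ≤ i / w := by
            rw [Nat.le_div_iff_mul_le hw, Nat.mul_comm]; exact h
          omega
        have h6 : ¬ i / w < n + 1 := by omega
        have h7 : w ≤ i - w * n := by
          have : w * (n + 1) ≤ i := by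
            have h8 : n + 1 ≤ i / w := h5
            calc w * (n + 1) ≤ w * (i / w) := Nat.mul_le_mul_left _ h8
              _ ≤ i := Nat.mul_div_le i w
          rw [Nat.mul_succ] at this
          omega
        have h9 : (x n).testBit (i - w * n) = false := by
          apply Nat.testBit_lt_two_pow
          calc x n < 2 ^ w := hx n (by omega)
            _ ≤ 2 ^ (i - w * n) := Nat.pow_le_pow_right (by norm_num) h7
        rw [h9]
        simp [h6]

lemma pkn_add (w : ℕ) (x y : ℕ → ℕ) (n : ℕ) :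
    pkn w x n + pkn w y n = pkn w (fun j => x j + y j) n := by
  unfold pkn
  rw [← Finset.sum_add_distrib]
  apply Finset.sum_congr rfl
  intro j _
  ring

lemma pkn_congr (w : ℕ) (x y : ℕ → ℕ) (n : ℕ) (h : ∀ j < n, x j = y j) :
    pkn w x n = pkn w y n := by
  unfold pkn
  apply Finset.sum_congr rfl
  intro j hj
  rw [h j (Finset.mem_range.mp hj)]

lemma pkn_smul (w h : ℕ) (x : ℕ → ℕ) (n : ℕ) : h * pkn w x n = pkn w (fun j => h * x j) n := by
  unfold pkn
  rw [Finset.mul_sum]
  apply Finset.sum_congr rfl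
  intro j _
  ring

lemma pkn_ext (w : ℕ) (x : ℕ → ℕ) (n n' : ℕ) (h : n ≤ n') (hx : ∀ j, n ≤ j → j < n' → x j = 0) :
    pkn w x n' = pkn w x n := by
  unfold pkn
  symm
  apply Finset.sum_subset (Finset.range_mono h)
  intro j hj hj'
  rw [hx j (by simpa using hj') (by simpa using hj)]
  ring

lemma pkn_xor (w : ℕ) (hw : 0 < w) (x y : ℕ → ℕ) (n : ℕ) (hx : ∀ j < n, x j < 2 ^ w)
    (hy : ∀ j < n, y j < 2 ^ w) :
    Nat.xor (pkn w x n) (pkn w y n) = pkn w (fun j => Nat.xor (x j) (y j)) n := by
  apply Nat.eq_of_testBit_eq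
  intro i
  have e : ∀ a b : ℕ, Nat.xor a b = a ^^^ b := fun a b => rfl
  rw [e, Nat.testBit_xor, testBit_pkn w hw x n hx, testBit_pkn w hw y n hy,
    testBit_pkn w hw _ n (fun j hj => by
      rw [e]; exact Nat.xor_lt_two_pow (hx j hj) (hy j hj))]
  rw [e, Nat.testBit_xor]
  by_cases h : i / w < n
  · simp [h]
  · simp [h]

lemma pkn_shift (w : ℕ) (hw : 0 < w) (x : ℕ → ℕ) (n e : ℕ) (hx : ∀ j < n, x j < 2 ^ w) :
    Nat.shiftRight (pkn w x n) (w * e) = pkn w (fun j => x (j + e)) (n - e) := by
  apply Nat.eq_of_testBit_eq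
  intro i
  have e1 : ∀ a b : ℕ, Nat.shiftRight a b = a >>> b := fun a b => rfl
  rw [e1, Nat.testBit_shiftRight, testBit_pkn w hw x n hx,
    testBit_pkn w hw _ (n - e) (fun j hj => hx _ (by omega))]
  have e2 : (w * e + i) / w = i / w + e := by
    rw [Nat.mul_add_div hw]; omega
  have e3 : (w * e + i) % w = i % w := Nat.mul_add_mod _ _ _
  rw [e2, e3]
  generalize i / w = t
  by_cases h : t < n - e
  · have : t + e < n := by omega
    simp [h, this]
  · have : ¬ t + e < n := by omega
    simp [h, this]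

/-- the test of positivity of all fields -/
lemma pos_pkn (w : ℕ) (hw : 1 < w) (x : ℕ → ℕ) (n : ℕ) (h1 : ∀ j < n, 2 ^ (w - 1) ≤ x j)
    (h2 : ∀ j < n, x j < 2 ^ w) :
    Nat.land (pkn w x n) (pkn w (fun _ => 2 ^ (w - 1)) n) = pkn w (fun _ => 2 ^ (w - 1)) n := by
  apply Nat.eq_of_testBit_eq
  intro i
  have e : ∀ a b : ℕ, Nat.land a b = a &&& b := fun a b => rfl
  have hp : 2 ^ (w - 1) < 2 ^ w := Nat.pow_lt_pow_right (by norm_num) (by omega)
  rw [e, Nat.testBit_and, testBit_pkn w (by omega) x n h2,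
    testBit_pkn w (by omega) _ n (fun j _ => hp)]
  by_cases h : i / w < n
  · simp only [h, decide_true, Bool.true_and, Nat.testBit_two_pow]
    by_cases h3 : w - 1 = i % w
    · rw [← h3]
      have h4 : (x (i / w)).testBit (w - 1) = true := by
        have h5 := h1 _ h
        have h6 := h2 _ h
        have e7 : w = (w - 1) + 1 := by omega
        rw [Nat.testBit_eq_decide_div_mod_eq]
        have : x (i / w) / 2 ^ (w - 1) = 1 := by
          apply Nat.div_eq_of_lt_le
          · omega
          · have : 2 ^ w = 2 ^ (w - 1) * 2 := by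
              conv_lhs => rw [e7]
              rw [pow_succ]
            omega
        rw [this]
        rfl
      rw [h4]
      simp
    · simp [h3]
  · simp [h]

/-- the test of absence of zero fields -/
lemma fast_false (m n : ℕ) (A Bf : ℕ → ℕ) (h e : ℕ) (hA : ∀ j < n, A j + h < 2 ^ 63)
    (hB : ∀ j < m, Bf j < 2 ^ 63) (hmn : m ≤ n - e)
    (hj : ∃ j < m, A (j + e) + h = Bf j) :
    fast h e (pkn 64 A n) (pkn 64 Bf m) (pkn 64 (fun _ => 1) m)
      (pkn 64 (fun _ => 2 ^ 63 - 1) m) (pkn 64 (fun _ => 2 ^ 63) m) = false := by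
  unfold fast
  have hA' : ∀ j < n, A j < 2 ^ 64 := fun j hj => by
    have := hA j hj
    omega
  change Nat.beq (Nat.land (Nat.xor (Nat.shiftRight (pkn 64 A n) (64 * e) +
    h * pkn 64 (fun _ => 1) m) (pkn 64 Bf m) + pkn 64 (fun _ => 2 ^ 63 - 1) m)
    (pkn 64 (fun _ => 2 ^ 63) m)) (pkn 64 (fun _ => 2 ^ 63) m) = false
  set N := n - e with hN
  rw [pkn_shift 64 (by norm_num) A n e hA', pkn_smul]
  have e1 : pkn 64 (fun _ => h * 1) m = pkn 64 (fun j => if j < m then h else 0) N := by
    rw [pkn_ext 64 (fun j => if j < m then h else 0) m N hmn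
      (fun j hj _ => by rw [if_neg (by omega)])]
    apply pkn_congr
    intro j hj
    simp [hj]
  have e2 : pkn 64 Bf m = pkn 64 (fun j => if j < m then Bf j else 0) N := by
    rw [pkn_ext 64 (fun j => if j < m then Bf j else 0) m N hmn
      (fun j hj _ => by rw [if_neg (by omega)])]
    apply pkn_congr
    intro j hj
    simp [hj]
  have e3 : pkn 64 (fun _ => 2 ^ 63 - 1) m =
      pkn 64 (fun j => if j < m then 2 ^ 63 - 1 else 0) N := by
    rw [pkn_ext 64 (fun j => if j < m then 2 ^ 63 - 1 else 0) m N hmn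
      (fun j hj _ => by rw [if_neg (by omega)])]
    apply pkn_congr
    intro j hj
    simp [hj]
  have b1 : ∀ j < N, (fun j => A (j + e) + if j < m then h else 0) j < 2 ^ 63 := by
    intro j hj
    have := hA (j + e) (by omega)
    show A (j + e) + (if j < m then h else 0) < 2 ^ 63
    split <;> omega
  have b2 : ∀ j < N, (fun j => if j < m then Bf j else 0) j < 2 ^ 63 := by
    intro j _
    show (if j < m then Bf j else 0) < 2 ^ 63
    split
    · rename_i h'; exact hB j h'
    · norm_num
  have b1' : ∀ j < N, (fun j => A (j + e) + if j < m then h else 0) j < 2 ^ 64 := by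
    intro j hj
    have := b1 j hj
    omega
  have b2' : ∀ j < N, (fun j => if j < m then Bf j else 0) j < 2 ^ 64 := by
    intro j hj
    have := b2 j hj
    omega
  rw [e1, e2, e3, pkn_add, pkn_xor 64 (by norm_num) _ _ N b1' b2', pkn_add]
  obtain ⟨j, hj, hjj⟩ := hj
  have b3 : ∀ i < N, (fun j => Nat.xor (A (j + e) + if j < m then h else 0)
      (if j < m then Bf j else 0) + if j < m then 2 ^ 63 - 1 else 0) i < 2 ^ 64 := by
    intro i hi
    have h1 := b1 i hi
    have h2 := b2 i hi
    have h3 : Nat.xor (A (i + e) + if i < m then h else 0) (if i < m then Bf i else 0) < 2 ^ 63 :=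
      Nat.xor_lt_two_pow h1 h2
    show Nat.xor (A (i + e) + if i < m then h else 0) (if i < m then Bf i else 0) +
      (if i < m then 2 ^ 63 - 1 else 0) < 2 ^ 64
    have h4 : (if i < m then 2 ^ 63 - 1 else 0) ≤ 2 ^ 63 := by
      split <;> norm_num
    omega
  have key : (pkn 64 (fun j => Nat.xor (A (j + e) + if j < m then h else 0)
      (if j < m then Bf j else 0) + if j < m then 2 ^ 63 - 1 else 0) N).testBit (64 * j + 63) =
      false := by
    rw [testBit_pkn 64 (by norm_num) _ N b3]
    have h1 : (64 * j + 63) / 64 = j := by omega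
    have h2 : (64 * j + 63) % 64 = 63 := by omega
    rw [h1, h2, if_pos hj, if_pos hj, if_pos hj, hjj]
    have h3 : Nat.xor (Bf j) (Bf j) = 0 := Nat.xor_self _
    rw [h3, Nat.zero_add]
    have h4 : (2 ^ 63 - 1 : ℕ).testBit 63 = false := by
      apply Nat.testBit_lt_two_pow
      norm_num
    rw [h4, Bool.and_false]
  have key2 : (pkn 64 (fun _ => 2 ^ 63) m).testBit (64 * j + 63) = true := by
    rw [testBit_pkn 64 (by norm_num) _ m (fun _ _ => by norm_num)]
    have h1 : (64 * j + 63) / 64 = j := by omega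
    have h2 : (64 * j + 63) % 64 = 63 := by omega
    rw [h1, h2, Nat.testBit_two_pow_self]
    simp [hj]
  by_contra hcon
  have hb : Nat.land (pkn 64 (fun j => Nat.xor (A (j + e) + if j < m then h else 0)
      (if j < m then Bf j else 0) + if j < m then 2 ^ 63 - 1 else 0) N)
      (pkn 64 (fun _ => 2 ^ 63) m) = pkn 64 (fun _ => 2 ^ 63) m := by
    have h1 := Bool.not_eq_false _ ▸ hcon
    exact Nat.eq_of_beq_eq_true (by simpa using h1)
  have h1 := congrArg (fun z => Nat.testBit z (64 * j + 63)) hb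
  have e5 : ∀ a b : ℕ, Nat.land a b = a &&& b := fun a b => rfl
  simp only [e5, Nat.testBit_and, key, key2] at h1
  simp at h1

end Pool.Agent.Q134.NK
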