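import Pool.Agent.Q134.NK.Pack
import Pool.Agent.Q134.NK.Final

/-!
Soundness of the tables: permutations, packed fields.
-/

set_option autoImplicit false

namespace Pool.Agent.Q134.NK

open Finset

/-! ### fields of packed numbers -/

lemma fld_pkn (w : ℕ) (hw : 0 < w) (F : ℕ → ℕ) (n : ℕ) (hF : ∀ j < n, F j < 2 ^ w) (j : ℕ)
    (hj : j < n) : Nat.mod (Nat.shiftRight (pkn w F n) (Nat.mul w j)) (2 ^ w) = F j := by
  have e1 : Nat.shiftRight (pkn w F n) (Nat.mul w j) = pkn w (fun i => F (i + j)) (n - j) :=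
    pkn_shift w hw F n j hF
  rw [e1]
  obtain ⟨k, hk⟩ : ∃ k, n - j = k + 1 := ⟨n - j - 1, by omega⟩
  rw [hk]
  have e2 : pkn w (fun i => F (i + j)) (k + 1) = F j + 2 ^ w * pkn w (fun i => F (i + 1 + j)) k := by
    unfold pkn
    rw [Finset.sum_range_succ', Finset.mul_sum, Nat.add_comm]
    congr 1
    · simp
    · apply Finset.sum_congr rfl
      intro i _
      rw [Nat.mul_succ, pow_add]
      ring
  rw [e2]
  change (F j + 2 ^ w * pkn w (fun i => F (i + 1 + j)) k) % 2 ^ w = F j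
  rw [Nat.add_mul_mod_self_left, Nat.mod_eq_of_lt (hF j hj)]

lemma pkn_fld (w : ℕ) (n : ℕ) : ∀ x, x < 2 ^ (w * n) →
    x = pkn w (fun j => Nat.mod (Nat.shiftRight x (Nat.mul w j)) (2 ^ w)) n := by
  induction n with
  | zero => intro x hx; simp at hx; simp [pkn, hx]
  | succ n ih =>
    intro x hx
    have hx' : x % 2 ^ (w * n) < 2 ^ (w * n) := Nat.mod_lt _ (by positivity)
    have h1 := ih (x % 2 ^ (w * n)) hx'
    have e1 : ∀ j < n, Nat.mod (Nat.shiftRight (x % 2 ^ (w * n)) (Nat.mul w j)) (2 ^ w) =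
        Nat.mod (Nat.shiftRight x (Nat.mul w j)) (2 ^ w) := by
      intro j hj
      change ((x % 2 ^ (w * n)) >>> (w * j)) % 2 ^ w = (x >>> (w * j)) % 2 ^ w
      rw [Nat.shiftRight_eq_div_pow, Nat.shiftRight_eq_div_pow]
      have h2 : w * n = w * j + w * (n - j) := by rw [← Nat.mul_add]; congr 1; omega
      rw [h2, pow_add, Nat.mod_mul_right_div_self]
      have h3 : w * (n - j) = w + w * (n - j - 1) := by
        have : n - j = 1 + (n - j - 1) := by omega
        conv_lhs => rw [this]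
        rw [Nat.mul_add, Nat.mul_one]
      rw [h3, pow_add, Nat.mod_mul_right_mod]
    have e2 : pkn w (fun j => Nat.mod (Nat.shiftRight (x % 2 ^ (w * n)) (Nat.mul w j)) (2 ^ w)) n =
        pkn w (fun j => Nat.mod (Nat.shiftRight x (Nat.mul w j)) (2 ^ w)) n := pkn_congr _ _ _ _ e1
    rw [e2] at h1
    have e3 : pkn w (fun j => Nat.mod (Nat.shiftRight x (Nat.mul w j)) (2 ^ w)) (n + 1) =
        pkn w (fun j => Nat.mod (Nat.shiftRight x (Nat.mul w j)) (2 ^ w)) n +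
          Nat.mod (Nat.shiftRight x (Nat.mul w n)) (2 ^ w) * 2 ^ (w * n) := by
      unfold pkn
      rw [Finset.sum_range_succ]
    rw [e3, ← h1]
    have e4 : Nat.mod (Nat.shiftRight x (Nat.mul w n)) (2 ^ w) = x / 2 ^ (w * n) := by
      change (x >>> (w * n)) % 2 ^ w = _
      rw [Nat.shiftRight_eq_div_pow]
      apply Nat.mod_eq_of_lt
      rw [Nat.div_lt_iff_lt_mul (by positivity), ← pow_add, Nat.add_comm, ← Nat.mul_succ]
      exact hx
    rw [e4]
    have := Nat.mod_add_div x (2 ^ (w * n))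
    rw [Nat.mul_comm (x / 2 ^ (w * n))]
    exact this.symm

/-! ### permutations from tables -/

/-- function from a table -/
noncomputable def fn (l : List ℕ) : Fin 5 → Fin 5 := fun a => ⟨lk 0 l a % 5, Nat.mod_lt _ (by norm_num)⟩

noncomputable def mkp (f g : Fin 5 → Fin 5) : S5 :=
  if h : (∀ a, g (f a) = a) ∧ (∀ a, f (g a) = a) then ⟨f, g, h.1, h.2⟩ else 1

/-- permutation number `y` -/
noncomputable def Dat.pe (D : Dat) (y : ℕ) : S5 := mkp (fn (lk [] D.pt y)) (fn (lk [] D.pi y))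

/-- row test: entries less than 5 and the two tables inverse to each other -/
noncomputable def chkRow (l l' : List ℕ) : Bool :=
  allr (fun a => andr (Nat.ble (lk 0 l a) 4) (andr (Nat.ble (lk 0 l' a) 4)
    (andr (Nat.beq (lk 0 l' (lk 0 l a)) a) (Nat.beq (lk 0 l (lk 0 l' a)) a)))) (List.range 5)

lemma beq_iff (a b : ℕ) : Nat.beq a b = true ↔ a = b := by
  constructor
  · exact Nat.eq_of_beq_eq_true
  · rintro rfl; exact Nat.beq_refl a

lemma ble_iff (a b : ℕ) : Nat.ble a b = true ↔ a ≤ b :=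
  ⟨Nat.le_of_ble_eq_true, Nat.ble_eq_true_of_le⟩

lemma chkRow_spec {l l' : List ℕ} (h : chkRow l l' = true) :
    (∀ a : Fin 5, ((mkp (fn l) (fn l')) a : ℕ) = lk 0 l a) ∧
    (∀ a : Fin 5, ((mkp (fn l) (fn l')).symm a : ℕ) = lk 0 l' a) ∧
    (∀ a : Fin 5, lk 0 l a < 5) ∧ (∀ a : Fin 5, lk 0 l' a < 5) := by
  unfold chkRow at h
  rw [allr_iff] at h
  have h' : ∀ a : Fin 5, lk 0 l a ≤ 4 ∧ lk 0 l' a ≤ 4 ∧ lk 0 l' (lk 0 l a) = a ∧
      lk 0 l (lk 0 l' a) = a := by
    intro a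
    have h1 := h a (by simp)
    simp only [andr_iff, beq_iff, ble_iff] at h1
    exact h1
  have e1 : ∀ a : Fin 5, ((fn l a : Fin 5) : ℕ) = lk 0 l a := by
    intro a
    have := (h' a).1
    show lk 0 l a % 5 = _
    omega
  have e2 : ∀ a : Fin 5, ((fn l' a : Fin 5) : ℕ) = lk 0 l' a := by
    intro a
    have := (h' a).2.1
    show lk 0 l' a % 5 = _
    omega
  have hp : (∀ a, fn l' (fn l a) = a) ∧ (∀ a, fn l (fn l' a) = a) := by
    constructor
    · intro a
      apply Fin.ext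
      rw [e2, e1]
      exact (h' a).2.2.1
    · intro a
      apply Fin.ext
      rw [e1, e2]
      exact (h' a).2.2.2
  have e3 : mkp (fn l) (fn l') = ⟨fn l, fn l', hp.1, hp.2⟩ := by
    unfold mkp
    rw [dif_pos hp]
  refine ⟨?_, ?_, ?_, ?_⟩
  · intro a
    rw [e3]
    exact e1 a
  · intro a
    rw [e3]
    exact e2 a
  · intro a
    have := (h' a).1
    omega
  · intro a
    have := (h' a).2.1
    omega

/-- all rows -/
noncomputable def Dat.chkP (D : Dat) : Bool :=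
  allr (fun y => chkRow (lk [] D.pt y) (lk [] D.pi y)) (List.range D.G)

lemma Dat.pe_spec {D : Dat} (h : D.chkP = true) {y : ℕ} (hy : y < D.G) (a : Fin 5) :
    ((D.pe y) a : ℕ) = lk 0 (lk [] D.pt y) a ∧ ((D.pe y).symm a : ℕ) = lk 0 (lk [] D.pi y) a := by
  unfold Dat.chkP at h
  rw [allr_iff] at h
  have h1 := chkRow_spec (h y (by simpa using hy))
  exact ⟨h1.1 a, h1.2.1 a⟩

/-- products with the letters -/
noncomputable def Dat.chkM (D : Dat) : Bool :=
  andr (allr (fun i => Nat.ble (Nat.succ (lk 0 D.ui i)) D.G) (List.range D.L))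
  (allr (fun y => allr (fun i =>
    andr (Nat.ble (Nat.succ (lk 0 (lk [] D.yu y) i)) D.G)
    (andr (Nat.ble (Nat.succ (lk 0 (lk [] D.uy i) y)) D.G)
    (allr (fun a => andr
      (Nat.beq (lk 0 (lk [] D.pt (lk 0 (lk [] D.yu y) i)) a)
        (lk 0 (lk [] D.pt y) (lk 0 (lk [] D.pt (lk 0 D.ui i)) a)))
      (Nat.beq (lk 0 (lk [] D.pt (lk 0 D.ui i)) (lk 0 (lk [] D.pt (lk 0 (lk [] D.uy i) y)) a))
        (lk 0 (lk [] D.pt y) a))) (List.range 5)))) (List.range D.L)) (List.range D.G))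

/-- the letters of the base word -/
noncomputable def Dat.u (D : Dat) (i : ℕ) : S5 := D.pe (lk 0 D.ui i)

lemma Dat.ui_lt {D : Dat} (h : D.chkM = true) {i : ℕ} (hi : i < D.L) : lk 0 D.ui i < D.G := by
  unfold Dat.chkM at h
  rw [andr_iff, allr_iff, allr_iff] at h
  have := h.1 i (by simpa using hi)
  rw [ble_iff] at this
  exact this

lemma Dat.mul_spec {D : Dat} (hP : D.chkP = true) (h : D.chkM = true) {y i : ℕ} (hy : y < D.G)
    (hi : i < D.L) :
    (lk 0 (lk [] D.yu y) i < D.G ∧ D.pe (lk 0 (lk [] D.yu y) i) = D.pe y * D.u i) ∧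
    (lk 0 (lk [] D.uy i) y < D.G ∧ D.pe (lk 0 (lk [] D.uy i) y) = (D.u i)⁻¹ * D.pe y) := by
  have hu := Dat.ui_lt h hi
  unfold Dat.chkM at h
  rw [andr_iff, allr_iff, allr_iff] at h
  have h1 := h.2 y (by simpa using hy)
  rw [allr_iff] at h1
  have h2 := h1 i (by simpa using hi)
  rw [andr_iff, andr_iff, ble_iff, ble_iff, allr_iff] at h2
  obtain ⟨h3, h4, h5⟩ := h2
  have h6 : ∀ a : Fin 5, lk 0 (lk [] D.pt (lk 0 (lk [] D.yu y) i)) a =
        lk 0 (lk [] D.pt y) (lk 0 (lk [] D.pt (lk 0 D.ui i)) a) ∧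
      lk 0 (lk [] D.pt (lk 0 D.ui i)) (lk 0 (lk [] D.pt (lk 0 (lk [] D.uy i) y)) a) =
        lk 0 (lk [] D.pt y) a := by
    intro a
    have := h5 a (by simp)
    rw [andr_iff, beq_iff, beq_iff] at this
    exact this
  refine ⟨⟨h3, ?_⟩, ⟨h4, ?_⟩⟩
  · apply Equiv.ext
    intro a
    apply Fin.ext
    rw [(D.pe_spec hP h3 a).1, (h6 a).1]
    change _ = ((D.pe y) ((D.u i) a) : ℕ)
    rw [(D.pe_spec hP hy _).1]
    unfold Dat.u
    rw [(D.pe_spec hP hu a).1]
  · rw [eq_inv_mul_iff_mul_eq]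
    apply Equiv.ext
    intro a
    apply Fin.ext
    rw [(D.pe_spec hP hy a).1, ← (h6 a).2]
    change ((D.u i) ((D.pe (lk 0 (lk [] D.uy i) y)) a) : ℕ) = _
    unfold Dat.u
    rw [(D.pe_spec hP hu _).1, (D.pe_spec hP h4 a).1]

/-- identity -/
noncomputable def Dat.chkI (D : Dat) : Bool :=
  andr (Nat.ble 1 D.G) (andr (Nat.ble 2 D.L) (andr (Nat.beq (lk 0 D.ui 0) 0)
    (allr (fun a => Nat.beq (lk 0 (lk [] D.pt 0) a) a) (List.range 5))))

lemma Dat.pe_zero {D : Dat} (hP : D.chkP = true) (h : D.chkI = true) :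
    0 < D.G ∧ 2 ≤ D.L ∧ D.pe 0 = 1 ∧ D.u 0 = 1 := by
  unfold Dat.chkI at h
  rw [andr_iff, andr_iff, andr_iff, ble_iff, ble_iff, beq_iff, allr_iff] at h
  obtain ⟨h1, h2, h3, h4⟩ := h
  have h5 : D.pe 0 = 1 := by
    apply Equiv.ext
    intro a
    apply Fin.ext
    rw [(D.pe_spec hP h1 a).1]
    have := h4 a (by simp)
    rw [beq_iff] at this
    exact this
  exact ⟨h1, h2, h5, by unfold Dat.u; rw [h3, h5]⟩

/-! ### integer tables -/

/-- integer vector from a table -/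
noncomputable def vz (l : List ℤ) : Vec := fun a => lk 0 l a

noncomputable def Dat.Xv (D : Dat) (i : ℕ) : Vec := vz (lk [] D.X i)

noncomputable def Dat.vv (D : Dat) : Vec := vz D.v

noncomputable def Dat.Hf (D : Dat) (a b : Fin 5) : ℤ := lk 0 (lk [] D.H a) b

noncomputable def Dat.Bf (D : Dat) (o : ℕ) : Fin 5 := ⟨lk 0 D.B o % 5, Nat.mod_lt _ (by norm_num)⟩

noncomputable def Dat.chkX (D : Dat) : Bool :=
  andr (allr (fun a => decide (lk 0 (lk [] D.X 0) a = 0)) (List.range 5))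
  (andr (allr (fun i => allr (fun a => decide (lk 0 (lk [] D.X (Nat.succ i)) a =
    lk 0 (lk [] D.X i) a + lk 0 D.v (lk 0 (lk [] D.pi (lk 0 D.ui i)) a))) (List.range 5))
    (List.range D.L))
  (allr (fun a => decide (lk 0 (lk [] D.X D.L) a = (D.c : ℤ) * lk 0 D.v a)) (List.range 5)))

lemma Dat.X_spec {D : Dat} (hP : D.chkP = true) (hM : D.chkM = true) (h : D.chkX = true) :
    (∀ i ≤ D.L, vs D.u D.vv i = D.Xv i) ∧ vs D.u D.vv D.L = (D.c : ℤ) • D.vv := by
  unfold Dat.chkX at h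
  rw [andr_iff, andr_iff, allr_iff, allr_iff, allr_iff] at h
  obtain ⟨h0, h1, h2⟩ := h
  have key : ∀ i ≤ D.L, vs D.u D.vv i = D.Xv i := by
    intro i
    induction i with
    | zero =>
      intro _
      funext a
      have := h0 a (by simp)
      simp only [decide_eq_true_eq] at this
      exact this.symm
    | succ i ih =>
      intro hi
      rw [vs, ih (by omega)]
      funext a
      have h3 := h1 i (by simp; omega)
      rw [allr_iff] at h3
      have h4 := h3 a (by simp)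
      simp only [decide_eq_true_eq] at h4
      have hu := Dat.ui_lt hM (i := i) (by omega)
      have h5 := (D.pe_spec hP hu a).2
      change lk 0 (lk [] D.X i) a + lk 0 D.v ((D.u i).symm a : ℕ) = lk 0 (lk [] D.X (i + 1)) a
      rw [h4]
      unfold Dat.u
      rw [h5]
  refine ⟨key, ?_⟩
  rw [key _ le_rfl]
  funext a
  have := h2 a (by simp)
  simp only [decide_eq_true_eq] at this
  exact this

noncomputable def Dat.chkB (D : Dat) : Bool :=
  andr (allr (fun a => Nat.beq (lk 0 (lk [] D.cn 0) a) 0) (List.range 5))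
  (andr (allr (fun o => andr (Nat.ble (lk 0 D.B o) 4) (allr (fun a =>
    Nat.beq (lk 0 (lk [] D.cn (Nat.succ o)) a)
      (Nat.add (lk 0 (lk [] D.cn o) a) (b2n (Nat.beq a (lk 0 D.B o)) 1))) (List.range 5)))
    (List.range D.m))
  (allr (fun a => decide (5 * ((lk 0 (lk [] D.cn D.m) a : ℕ) : ℤ) =
    (D.k : ℤ) * lk 0 D.v a + (D.m : ℤ))) (List.range 5)))

lemma Dat.B_spec {D : Dat} (h : D.chkB = true) :
    (∀ o ≤ D.m, ∀ a : Fin 5, ls D.Bf o a = ((lk 0 (lk [] D.cn o) a : ℕ) : ℤ)) ∧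
    (5 : ℤ) • ls D.Bf D.m = (D.k : ℤ) • D.vv + (fun _ => (D.m : ℤ)) := by
  unfold Dat.chkB at h
  rw [andr_iff, andr_iff, allr_iff, allr_iff, allr_iff] at h
  obtain ⟨h0, h1, h2⟩ := h
  have key : ∀ o ≤ D.m, ∀ a : Fin 5, ls D.Bf o a = ((lk 0 (lk [] D.cn o) a : ℕ) : ℤ) := by
    intro o
    induction o with
    | zero =>
      intro _ a
      have := h0 a (by simp)
      rw [beq_iff] at this
      rw [this]
      rfl
    | succ o ih =>
      intro ho a
      have h3 := h1 o (by simp; omega)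
      rw [andr_iff, ble_iff, allr_iff] at h3
      obtain ⟨h3, h4⟩ := h3
      have h5 := h4 a (by simp)
      rw [beq_iff] at h5
      have h5' : lk 0 (lk [] D.cn (o + 1)) a =
        lk 0 (lk [] D.cn o) a + b2n (Nat.beq a (lk 0 D.B o)) 1 := h5
      rw [h5', ls]
      simp only [Pi.add_apply]
      rw [ih (by omega) a]
      push_cast
      congr 1
      unfold ee
      by_cases hh : a = D.Bf o
      · rw [if_pos hh]
        have : (a : ℕ) = lk 0 D.B o := by
          rw [hh]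
          show lk 0 D.B o % 5 = _
          omega
        rw [this, Nat.beq_refl]
        rfl
      · rw [if_neg hh]
        have : Nat.beq a (lk 0 D.B o) = false := by
          rw [← Bool.not_eq_true, beq_iff]
          intro h6
          apply hh
          apply Fin.ext
          show (a : ℕ) = lk 0 D.B o % 5
          omega
        rw [this]
        rfl
  refine ⟨key, ?_⟩
  funext a
  have := h2 a (by simp)
  simp only [decide_eq_true_eq] at this
  simp only [Pi.smul_apply, Pi.add_apply, smul_eq_mul]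
  rw [key _ le_rfl]
  exact this

noncomputable def Dat.chkH (D : Dat) : Bool :=
  andr (allr (fun i => allr (fun a => allr (fun b =>
    andr (decide (((lk 0 (lk [] D.Qt i) (Nat.add (Nat.mul 5 a) b) : ℕ) : ℤ) =
      (D.s : ℤ) * (lk 0 (lk [] D.X i) a - lk 0 (lk [] D.X i) b) +
        lk 0 (lk [] D.H (lk 0 (lk [] D.pi (lk 0 D.ui i)) a)) (lk 0 (lk [] D.pi (lk 0 D.ui i)) b) +
        (D.q0 : ℤ)))
    (decide (((lk 0 (lk [] D.Qt i) (Nat.add (Nat.mul 5 a) b) : ℕ) : ℤ) - (D.q0 : ℤ) ≤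
      (D.c : ℤ) * lk 0 (lk [] D.H a) b))) (List.range 5)) (List.range 5)) (List.range D.L))
  (allr (fun r => allr (fun a => allr (fun b =>
    decide (5 * (D.s : ℤ) * (((lk 0 r a : ℕ) : ℤ) - ((lk 0 r b : ℕ) : ℤ)) ≤
      (D.k : ℤ) * lk 0 (lk [] D.H a) b)) (List.range 5)) (List.range 5)) (D.cn.take D.m))

lemma lk_mem_take {α : Type} (z : α) (l : List α) (n o : ℕ) (ho : o < n) (hl : o < l.length) :
    lk z l o ∈ l.take n := by
  rw [lk_eq, List.getD_eq_getElem _ _ hl]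
  rw [List.mem_take_iff_getElem]
  exact ⟨o, by omega, rfl⟩

lemma Dat.H_spec {D : Dat} (hP : D.chkP = true) (hM : D.chkM = true) (hX : D.chkX = true)
    (hB : D.chkB = true) (h : D.chkH = true) (hl : D.m < D.cn.length) :
    (∀ i < D.L, ∀ a b : Fin 5,
      ((lk 0 (lk [] D.Qt i) (5 * (a : ℕ) + b) : ℕ) : ℤ) =
        Qf D.s D.Hf D.u (vs D.u D.vv) i a b + D.q0) ∧
    (∀ i < D.L, ∀ a b, Qf D.s D.Hf D.u (vs D.u D.vv) i a b ≤ D.c * D.Hf a b) ∧
    (∀ o < D.m, ∀ a b, 5 * (D.s : ℤ) * (ls D.Bf o a - ls D.Bf o b) ≤ D.k * D.Hf a b) := by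
  unfold Dat.chkH at h
  rw [andr_iff, allr_iff, allr_iff] at h
  obtain ⟨h1, h2⟩ := h
  have k1 : ∀ i < D.L, ∀ a b : Fin 5,
      ((lk 0 (lk [] D.Qt i) (5 * (a : ℕ) + b) : ℕ) : ℤ) =
        Qf D.s D.Hf D.u (vs D.u D.vv) i a b + D.q0 ∧
      ((lk 0 (lk [] D.Qt i) (5 * (a : ℕ) + b) : ℕ) : ℤ) - D.q0 ≤ D.c * D.Hf a b := by
    intro i hi a b
    have h3 := h1 i (by simpa using hi)
    rw [allr_iff] at h3
    have h4 := h3 a (by simp)
    rw [allr_iff] at h4
    have h5 := h4 b (by simp)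
    rw [andr_iff, decide_eq_true_eq, decide_eq_true_eq] at h5
    obtain ⟨h5, h6⟩ := h5
    refine ⟨?_, h6⟩
    have e : ((lk 0 (lk [] D.Qt i) (5 * (a : ℕ) + b) : ℕ) : ℤ) =
      ((lk 0 (lk [] D.Qt i) (Nat.add (Nat.mul 5 a) b) : ℕ) : ℤ) := rfl
    rw [e, h5]
    unfold Qf
    rw [(D.X_spec hP hM hX).1 i hi.le]
    have hu := Dat.ui_lt hM hi
    unfold Dat.Hf Dat.u
    rw [(D.pe_spec hP hu a).2, (D.pe_spec hP hu b).2]
    rfl
  refine ⟨fun i hi a b => (k1 i hi a b).1, ?_, ?_⟩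
  · intro i hi a b
    have := k1 i hi a b
    linarith [this.1, this.2]
  · intro o ho a b
    have h3 := h2 (lk [] D.cn o) (lk_mem_take _ _ _ _ ho (by omega))
    rw [allr_iff] at h3
    have h4 := h3 a (by simp)
    rw [allr_iff] at h4
    have h5 := h4 b (by simp)
    rw [decide_eq_true_eq] at h5
    rw [(D.B_spec hB).1 o ho.le, (D.B_spec hB).1 o ho.le]
    exact h5

end Pool.Agent.Q134.NK
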