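import Pool.Agent.Q134.NK.Snd1

/-!
Soundness of the search for near children.
-/

set_option autoImplicit false

namespace Pool.Agent.Q134.NK

open Finset

/-- packed sum of fields -/
noncomputable def pkr (w : ℕ) (F : ℕ → ℕ) (n : ℕ) : ℕ :=
  @Nat.rec (fun _ => ℕ) 0 (fun j ih => Nat.add ih (Nat.mul (F j) (Nat.pow 2 (Nat.mul w j)))) n

lemma pkr_eq (w : ℕ) (F : ℕ → ℕ) (n : ℕ) : pkr w F n = pkn w F n := by
  induction n with
  | zero => rfl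
  | succ n ih =>
    have e : pkr w F (n + 1) = pkr w F n + F n * 2 ^ (w * n) := rfl
    rw [e, ih]
    unfold pkn
    rw [Finset.sum_range_succ]

/-- field `j` of width 20 -/
noncomputable def f20 (x j : ℕ) : ℕ := Nat.mod (Nat.shiftRight x (Nat.mul 20 j)) 1048576

lemma pkn_f20 (x : ℕ) (hx : x < 2 ^ 540) : x = pkn 20 (f20 x) 27 := pkn_fld 20 27 x hx

/-- `if n` -/
noncomputable def cnd (b : Bool) (x y : ℕ) : ℕ := @Bool.rec (fun _ => ℕ) y x b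

noncomputable def Dat.Fn (D : Dat) (y i j : ℕ) : ℕ :=
  cnd (Nat.ble 25 j) (cnd (Nat.beq j 26) (Nat.sub D.q0 i) (Nat.add D.q0 i))
    (lk 0 (lk [] D.Qt i) (Nat.add (Nat.mul 5 (lk 0 (lk [] D.pi y) (Nat.div j 5)))
      (lk 0 (lk [] D.pi y) (Nat.mod j 5))))

noncomputable def Dat.Rn (D : Dat) (y i j : ℕ) : ℕ :=
  cnd (Nat.ble 25 j) (cnd (Nat.beq j 26) (Nat.add D.q0 i) (Nat.sub D.q0 i))
    (lk 0 (lk [] D.Qt i) (Nat.add (Nat.mul 5 (lk 0 (lk [] D.pi y) (Nat.mod j 5)))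
      (lk 0 (lk [] D.pi y) (Nat.div j 5))))

noncomputable def okl (L C : ℕ) (F : ℕ → ℕ → ℕ) (l : List Gr) (mx : ℕ) : Bool :=
  andr (allr (fun i => anyr (fun g => anyr (fun e => Nat.beq e.i i) g.l) l) (List.range L))
  (andr (andr (Nat.ble (Nat.succ mx) (Nat.pow 2 540))
    (allr (fun j => Nat.ble (f20 mx j) C) (List.range 27)))
  (allr (fun g => andr (Nat.ble (Nat.succ g.g) (Nat.pow 2 540)) (andr
     (allr (fun j => Nat.ble (f20 g.g j) C) (List.range 27))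
     (allr (fun e => andr (Nat.beq e.v (pkr 20 (F e.i) 27))
        (allr (fun j => andr (Nat.ble (f20 e.v j) (f20 g.g j)) (Nat.ble (f20 e.v j) (f20 mx j)))
          (List.range 27))) g.l))) l))

lemma okl_spec {L C : ℕ} {F : ℕ → ℕ → ℕ} {l : List Gr} {mx : ℕ} (h : okl L C F l mx = true)
    (hF : ∀ i < L, ∀ j < 27, F i j ≤ C) (hC : C < 2 ^ 20) (i : ℕ) (hi : i < L) :
    ∃ g ∈ l, ∃ e ∈ g.l, e.i = i ∧ e.v = pkn 20 (F i) 27 ∧ g.g = pkn 20 (f20 g.g) 27 ∧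
      mx = pkn 20 (f20 mx) 27 ∧ ∀ j < 27, F i j ≤ f20 g.g j ∧ F i j ≤ f20 mx j ∧
        f20 g.g j ≤ C ∧ f20 mx j ≤ C := by
  unfold okl at h
  rw [andr_iff, andr_iff, andr_iff, allr_iff, allr_iff, allr_iff, ble_iff] at h
  obtain ⟨h1, ⟨h2, h3⟩, h4⟩ := h
  obtain ⟨g, hg, hg2⟩ := anyr_imp _ _ (h1 i (by simpa using hi))
  obtain ⟨e, he, he2⟩ := anyr_imp _ _ hg2
  rw [beq_iff] at he2
  have h5 := h4 g hg
  rw [andr_iff, andr_iff, allr_iff, allr_iff, ble_iff] at h5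
  obtain ⟨h6, h7, h8⟩ := h5
  have h9 := h8 e he
  rw [andr_iff, beq_iff, allr_iff, pkr_eq, he2] at h9
  obtain ⟨h10, h11⟩ := h9
  refine ⟨g, hg, e, he, he2, h10, pkn_f20 _ h6, pkn_f20 _ h2, ?_⟩
  intro j hj
  have h12 := h11 j (by simpa using hj)
  rw [andr_iff, ble_iff, ble_iff] at h12
  have h13 : f20 e.v j = F i j := by
    rw [h10]
    exact fld_pkn 20 (by norm_num) _ 27 (fun j hj => lt_of_le_of_lt (hF i hi j hj) hC) j hj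
  rw [h13] at h12
  refine ⟨h12.1, h12.2, ?_, ?_⟩
  · have := h7 j (by simpa using hj)
    rwa [ble_iff] at this
  · have := h3 j (by simpa using hj)
    rwa [ble_iff] at this

lemma prn_pass {top s : ℕ} {b : Bool} (h1 : Nat.land s top = top) (h : prn top s b = true) :
    b = true := by
  unfold prn at h
  have h2 : Nat.beq (Nat.land s top) top = true := by rw [beq_iff]; exact h1
  rw [h2] at h
  exact h

lemma lvg_imp {top s mr : ℕ} {k : ℕ → ℕ → Bool} {l : List Gr} {g : Gr} {e : En} (hg : g ∈ l)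
    (he : e ∈ g.l) (h : lvg top s mr k l = true) (h1 : Nat.land (s + g.g + mr) top = top)
    (h2 : Nat.land (s + e.v + mr) top = top) : k e.i (s + e.v) = true := by
  unfold lvg at h
  rw [allr_iff] at h
  have h3 := prn_pass h1 (h g hg)
  rw [allr_iff] at h3
  exact prn_pass h2 (h3 e he)

lemma land_ok {Fb a1 a2 a0 a3 X1 X2 X0 X3 : ℕ → ℕ} {CB BM : ℕ}
    (hZ : ∀ j < 27, 2 ^ 19 ≤ Fb j + a1 j + a2 j + a0 j + a3 j)
    (hB : ∀ j < 27, Fb j ≤ CB) (hC : CB + 6 * BM < 2 ^ 20)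
    (h1 : ∀ j < 27, a1 j ≤ X1 j ∧ X1 j ≤ 2 * BM) (h2 : ∀ j < 27, a2 j ≤ X2 j ∧ X2 j ≤ 2 * BM)
    (h0 : ∀ j < 27, a0 j ≤ X0 j ∧ X0 j ≤ BM) (h3 : ∀ j < 27, a3 j ≤ X3 j ∧ X3 j ≤ BM)
    {S : ℕ} (hS : S = pkn 20 Fb 27 + pkn 20 X1 27 + pkn 20 X2 27 + pkn 20 X0 27 + pkn 20 X3 27) :
    Nat.land S (pkn 20 (fun _ => 2 ^ 19) 27) = pkn 20 (fun _ => 2 ^ 19) 27 := by
  rw [hS, pkn_add, pkn_add, pkn_add, pkn_add]
  apply pos_pkn 20 (by norm_num)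
  · intro j hj
    have := hZ j hj
    have := h1 j hj
    have := h2 j hj
    have := h0 j hj
    have := h3 j hj
    show 2 ^ 19 ≤ Fb j + X1 j + X2 j + X0 j + X3 j
    omega
  · intro j hj
    have := hB j hj
    have := h1 j hj
    have := h2 j hj
    have := h0 j hj
    have := h3 j hj
    show Fb j + X1 j + X2 j + X0 j + X3 j < 2 ^ 20
    omega

/-! ### records -/

structure Rep (D : Dat) (r : Cx) (x : Ct) : Prop where
  y1 : x.y1 = D.pe r.y1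
  y2 : x.y2 = D.pe r.y2
  y3 : x.y3 = D.pe r.y3
  f0 : x.f0 = bt r.f 0
  f1 : x.f1 = bt r.f 1
  f2 : x.f2 = bt r.f 2
  t : x.t = (r.t : ℤ) - 2
  d : ∀ a : Fin 5, x.d a = ((f16 r.d a : ℕ) : ℤ) - 32768

/-- packed functionals of a record -/
noncomputable def Dat.bF (D : Dat) (r : Cx) (j : ℕ) : ℕ :=
  cnd (Nat.ble 25 j)
    (cnd (Nat.beq j 26) (Nat.sub (Nat.add 2 (Nat.add (Nat.mul 2 D.L) D.BB)) (Nat.mul D.L r.t))
      (Nat.sub (Nat.add 2 (Nat.add (Nat.mul D.L r.t) D.BB)) (Nat.mul 2 D.L)))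
    (Nat.sub (Nat.add (Nat.mul (Nat.mul D.s D.c) (f16 r.d (Nat.div j 5))) D.BB)
      (Nat.mul (Nat.mul D.s D.c) (f16 r.d (Nat.mod j 5))))

/-- test of a record -/
noncomputable def Dat.chkR (D : Dat) (r : Cx) : Bool :=
  andr (Nat.ble (Nat.succ r.y1) D.G) (andr (Nat.ble (Nat.succ r.y2) D.G)
  (andr (Nat.ble (Nat.succ r.y3) D.G) (andr (Nat.ble r.t 4)
  (andr (Nat.ble (Nat.succ r.d) (Nat.pow 2 80))
  (andr (allr (fun a => andr (Nat.ble 32768 (Nat.add (f16 r.d a) D.Bd))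
    (Nat.ble (f16 r.d a) (Nat.add 32768 D.Bd))) (List.range 5))
  (Nat.beq r.base (pkr 20 (D.bF r) 27)))))))

structure RecOk (D : Dat) (r : Cx) : Prop where
  y1 : r.y1 < D.G
  y2 : r.y2 < D.G
  y3 : r.y3 < D.G
  t : r.t ≤ 4
  d : r.d < 2 ^ 80
  fd : ∀ a : Fin 5, 32768 ≤ f16 r.d a + D.Bd ∧ f16 r.d a ≤ 32768 + D.Bd
  base : r.base = pkn 20 (D.bF r) 27

lemma Dat.chkR_spec {D : Dat} {r : Cx} (h : D.chkR r = true) : RecOk D r := by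
  unfold Dat.chkR at h
  simp only [andr_iff, ble_iff, beq_iff, allr_iff] at h
  obtain ⟨h1, h2, h3, h4, h5, h6, h7⟩ := h
  exact ⟨h1, h2, h3, h4, h5, fun a => h6 a (by simp), by rw [h7, pkr_eq]⟩

/-- numerical conditions -/
noncomputable def Dat.chkN (D : Dat) : Bool :=
  andr (Nat.ble (Nat.mul 2 (Nat.mul (Nat.mul D.s D.c) D.Bd)) D.BB)
  (andr (Nat.beq (Nat.add D.BB (Nat.mul 6 D.q0)) 524288)
  (andr (Nat.ble (Nat.succ (Nat.add (Nat.add (Nat.add (Nat.add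
    (Nat.mul 2 (Nat.mul (Nat.mul D.s D.c) D.Bd)) D.BB) (Nat.mul 4 D.L)) 2) (Nat.mul 6 D.BM)))
    1048576)
  (andr (Nat.ble (Nat.succ (Nat.add (Nat.mul D.c D.Bd) (Nat.mul 6 D.bx))) 32768)
  (andr (Nat.beq D.top (pkr 20 (fun _ => 524288) 27))
  (andr (Nat.ble D.L D.q0)
  (andr (Nat.ble (Nat.add D.q0 D.L) D.BM)
  (andr (allr (fun r => allr (fun x => Nat.ble x D.BM) r) D.Qt)
  (andr (Nat.beq D.kk (pkr 16 (fun _ => Nat.mul (Nat.sub D.c 1) 32768) 5))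
  (andr (Nat.ble 1 D.c) (andr (Nat.ble 1 D.k) (andr (Nat.ble 1 D.m)
  (andr (Nat.ble (Nat.mul 2 D.L) D.BB) (Nat.ble (Nat.succ D.m) D.cn.length)))))))))))))

structure Num (D : Dat) : Prop where
  h1 : 2 * (D.s * D.c * D.Bd) ≤ D.BB
  h2 : D.BB + 6 * D.q0 = 524288
  h3 : 2 * (D.s * D.c * D.Bd) + D.BB + 4 * D.L + 2 + 6 * D.BM < 1048576
  h4 : D.c * D.Bd + 6 * D.bx < 32768
  h5 : D.top = pkn 20 (fun _ => 2 ^ 19) 27
  h6 : D.L ≤ D.q0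
  h7 : D.q0 + D.L ≤ D.BM
  h8 : ∀ i n, lk 0 (lk [] D.Qt i) n ≤ D.BM
  h9 : D.kk = pkn 16 (fun _ => (D.c - 1) * 32768) 5
  c : 1 ≤ D.c
  k : 1 ≤ D.k
  m : 1 ≤ D.m
  h10 : 2 * D.L ≤ D.BB
  h11 : D.m < D.cn.length

lemma lk_mem_or {α : Type} (z : α) (l : List α) (n : ℕ) : lk z l n ∈ l ∨ lk z l n = z := by
  rw [lk_eq]
  by_cases h : n < l.length
  · left
    rw [List.getD_eq_getElem _ _ h]
    exact List.getElem_mem h
  · right
    rw [List.getD_eq_default _ _ (by omega)]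

lemma Dat.chkN_spec {D : Dat} (h : D.chkN = true) : Num D := by
  unfold Dat.chkN at h
  simp only [andr_iff, ble_iff, beq_iff, allr_iff] at h
  obtain ⟨h1, h2, h3, h4, h5, h6, h7, h8, h9, h10, h11, h12, h13, h14⟩ := h
  refine ⟨h1, h2, h3, h4, ?_, h6, h7, ?_, ?_, h10, h11, h12, h13, h14⟩
  · rw [h5, pkr_eq]; norm_num
  · intro i n
    rcases lk_mem_or [] D.Qt i with hr | hr
    · rcases lk_mem_or 0 (lk [] D.Qt i) n with hx | hx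
      · exact h8 _ hr _ hx
      · rw [hx]; exact Nat.zero_le _
    · rw [hr]
      exact Nat.zero_le _
  · rw [h9, pkr_eq]; rfl

/-- the tables of functionals -/
noncomputable def Dat.chkO (D : Dat) : Bool :=
  andr (okl D.L D.BM (fun i j => D.Fn 0 i j) D.rn D.mn)
  (allr (fun y => andr (okl D.L D.BM (fun i j => D.Rn y i j) (lk [] D.rr y) (lk 0 D.mr y))
    (andr (okl D.L (Nat.mul 2 D.BM) (fun i j => Nat.mul 2 (D.Fn y i j)) (lk [] D.rn2 y)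
      (lk 0 D.mn2 y))
    (okl D.L (Nat.mul 2 D.BM) (fun i j => Nat.mul 2 (D.Rn y i j)) (lk [] D.rr2 y)
      (Nat.mul 2 (lk 0 D.mr y))))) (List.range D.G))

lemma Fn_le {D : Dat} (hN : Num D) (y i j : ℕ) (hi : i < D.L) : D.Fn y i j ≤ D.BM := by
  have h7 := hN.h7
  have h8 := hN.h8 i
  unfold Dat.Fn cnd
  cases Nat.ble 25 j
  · exact h8 _
  · cases Nat.beq j 26
    · change D.q0 + i ≤ D.BM
      omega
    · change D.q0 - i ≤ D.BM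
      omega

lemma Rn_le {D : Dat} (hN : Num D) (y i j : ℕ) (hi : i < D.L) : D.Rn y i j ≤ D.BM := by
  have h7 := hN.h7
  have h8 := hN.h8 i
  unfold Dat.Rn cnd
  cases Nat.ble 25 j
  · exact h8 _
  · cases Nat.beq j 26
    · change D.q0 - i ≤ D.BM
      omega
    · change D.q0 + i ≤ D.BM
      omega

/-- the packed vectors -/
noncomputable def Dat.chkT (D : Dat) : Bool :=
  andr (allr (fun i => allr (fun a => andr (decide (-(D.bx : ℤ) ≤ lk 0 (lk [] D.X i) a))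
    (decide (lk 0 (lk [] D.X i) a ≤ (D.bx : ℤ)))) (List.range 5)) (List.range D.L))
  (allr (fun y => allr (fun i => Nat.beq (lk 0 (lk [] D.Xt y) i)
    (pkr 16 (fun b => Int.toNat (lk 0 (lk [] D.X i) (lk 0 (lk [] D.pi y) b) + (D.bx : ℤ))) 5))
    (List.range D.L)) (List.range D.G))

/-- all the conditions on the tables -/
structure Good (D : Dat) : Prop where
  P : D.chkP = true
  M : D.chkM = true
  I : D.chkI = true
  X : D.chkX = true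
  B : D.chkB = true
  H : D.chkH = true
  N : Num D
  O : D.chkO = true
  T : D.chkT = true

lemma X_bd {D : Dat} (h : Good D) {i : ℕ} (hi : i < D.L) (a : Fin 5) :
    -(D.bx : ℤ) ≤ vs D.u D.vv i a ∧ vs D.u D.vv i a ≤ D.bx := by
  have hT := h.T
  unfold Dat.chkT at hT
  rw [andr_iff, allr_iff, allr_iff] at hT
  have h1 := hT.1 i (by simpa using hi)
  rw [allr_iff] at h1
  have h2 := h1 a (by simp)
  rw [andr_iff, decide_eq_true_eq, decide_eq_true_eq] at h2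
  rw [(D.X_spec h.P h.M h.X).1 i hi.le]
  exact h2

lemma Xt_spec {D : Dat} (h : Good D) {y i : ℕ} (hy : y < D.G) (hi : i < D.L) :
    lk 0 (lk [] D.Xt y) i = pkn 16 (fun b => if hb : b < 5 then
      Int.toNat (vs D.u D.vv i ((D.pe y).symm ⟨b, hb⟩) + D.bx) else 0) 5 := by
  have hT := h.T
  unfold Dat.chkT at hT
  rw [andr_iff, allr_iff, allr_iff] at hT
  have h1 := hT.2 y (by simpa using hy)
  rw [allr_iff] at h1
  have h2 := h1 i (by simpa using hi)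
  rw [beq_iff, pkr_eq] at h2
  rw [h2]
  apply pkn_congr
  intro b hb
  rw [dif_pos hb, (D.X_spec h.P h.M h.X).1 i hi.le]
  have h3 := (D.pe_spec h.P hy ⟨b, hb⟩).2
  change _ = Int.toNat (lk 0 (lk [] D.X i) ((D.pe y).symm ⟨b, hb⟩ : ℕ) + D.bx)
  rw [h3]

/-- index of a pair -/
lemma pair_idx (a b : Fin 5) : (5 * (a : ℕ) + b) < 25 ∧ Nat.div (5 * (a : ℕ) + b) 5 = a ∧
    Nat.mod (5 * (a : ℕ) + b) 5 = b := by
  have h1 := a.isLt
  have h2 := b.isLt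
  refine ⟨by omega, ?_, ?_⟩
  · change (5 * (a : ℕ) + b) / 5 = a
    omega
  · change (5 * (a : ℕ) + b) % 5 = b
    omega

lemma ble_25 {n : ℕ} (h : n < 25) : Nat.ble 25 n = false := by
  rw [← Bool.not_eq_true, ble_iff]; omega

lemma Fn_val {D : Dat} (h : Good D) {y i : ℕ} (hy : y < D.G) (hi : i < D.L) (a b : Fin 5) :
    ((D.Fn y i (5 * (a : ℕ) + b) : ℕ) : ℤ) =
      Qf D.s D.Hf D.u (vs D.u D.vv) i ((D.pe y).symm a) ((D.pe y).symm b) + D.q0 := by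
  obtain ⟨h1, h2, h3⟩ := pair_idx a b
  unfold Dat.Fn
  rw [ble_25 h1, h2, h3]
  rw [← (D.H_spec h.P h.M h.X h.B h.H h.N.h11).1 i hi, (D.pe_spec h.P hy a).2,
    (D.pe_spec h.P hy b).2]
  rfl

lemma Rn_val {D : Dat} (h : Good D) {y i : ℕ} (hy : y < D.G) (hi : i < D.L) (a b : Fin 5) :
    ((D.Rn y i (5 * (a : ℕ) + b) : ℕ) : ℤ) =
      Qf D.s D.Hf D.u (vs D.u D.vv) i ((D.pe y).symm b) ((D.pe y).symm a) + D.q0 := by
  obtain ⟨h1, h2, h3⟩ := pair_idx a b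
  unfold Dat.Rn
  rw [ble_25 h1, h2, h3]
  rw [← (D.H_spec h.P h.M h.X h.B h.H h.N.h11).1 i hi, (D.pe_spec h.P hy a).2,
    (D.pe_spec h.P hy b).2]
  rfl

lemma bF_val {D : Dat} (h : Good D) {r : Cx} (hr : RecOk D r) (a b : Fin 5) :
    ((D.bF r (5 * (a : ℕ) + b) : ℕ) : ℤ) =
      D.BB + D.s * D.c * (((f16 r.d a : ℕ) : ℤ) - ((f16 r.d b : ℕ) : ℤ)) := by
  obtain ⟨h1, h2, h3⟩ := pair_idx a b
  unfold Dat.bF
  rw [ble_25 h1, h2, h3]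
  change (((D.s * D.c * f16 r.d a + D.BB - D.s * D.c * f16 r.d b : ℕ)) : ℤ) = _
  have h4 : D.s * D.c * f16 r.d b ≤ D.s * D.c * f16 r.d a + D.BB := by
    have h5 := (hr.fd a).1
    have h6 := (hr.fd b).2
    have h7 : f16 r.d b ≤ f16 r.d a + 2 * D.Bd := by omega
    calc D.s * D.c * f16 r.d b ≤ D.s * D.c * (f16 r.d a + 2 * D.Bd) := Nat.mul_le_mul_left _ h7
      _ = D.s * D.c * f16 r.d a + 2 * (D.s * D.c * D.Bd) := by ring
      _ ≤ D.s * D.c * f16 r.d a + D.BB := Nat.add_le_add_left h.N.h1 _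
  push_cast [Nat.cast_sub h4]
  ring

lemma bF_25 {D : Dat} (h : Good D) {r : Cx} :
    ((D.bF r 25 : ℕ) : ℤ) = 2 + D.L * ((r.t : ℤ) - 2) + D.BB := by
  change (((2 + (D.L * r.t + D.BB) - 2 * D.L : ℕ)) : ℤ) = _
  have := h.N.h10
  have h4 : 2 * D.L ≤ 2 + (D.L * r.t + D.BB) := by omega
  push_cast [Nat.cast_sub h4]
  ring

lemma bF_26 {D : Dat} (h : Good D) {r : Cx} (hr : RecOk D r) :
    ((D.bF r 26 : ℕ) : ℤ) = 2 - D.L * ((r.t : ℤ) - 2) + D.BB := by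
  change (((2 + (2 * D.L + D.BB) - D.L * r.t : ℕ)) : ℤ) = _
  have h1 := h.N.h10
  have h4 : D.L * r.t ≤ 2 + (2 * D.L + D.BB) := by
    calc D.L * r.t ≤ D.L * 4 := Nat.mul_le_mul_left _ hr.t
      _ ≤ 2 + (2 * D.L + D.BB) := by omega
  push_cast [Nat.cast_sub h4]
  ring

lemma idx_cases {j : ℕ} (hj : j < 27) : (∃ a b : Fin 5, j = 5 * (a : ℕ) + b) ∨ j = 25 ∨ j = 26 := by
  by_cases h : j < 25
  · left
    exact ⟨⟨j / 5, by omega⟩, ⟨j % 5, by omega⟩, by simp only; omega⟩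
  · right; omega

lemma bF_le {D : Dat} (h : Good D) {r : Cx} (hr : RecOk D r) (j : ℕ) (hj : j < 27) :
    D.bF r j ≤ 2 * (D.s * D.c * D.Bd) + D.BB + 4 * D.L + 2 := by
  rcases idx_cases hj with ⟨a, b, rfl⟩ | rfl | rfl
  · have h1 := bF_val h hr a b
    have h2 := (hr.fd a).2
    have h3 := (hr.fd b).1
    have h4 : (((f16 r.d a : ℕ) : ℤ) - ((f16 r.d b : ℕ) : ℤ)) ≤ 2 * D.Bd := by
      have h5 : ((f16 r.d a : ℕ) : ℤ) ≤ 32768 + D.Bd := by exact_mod_cast h2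
      have h6 : (32768 : ℤ) ≤ ((f16 r.d b : ℕ) : ℤ) + D.Bd := by exact_mod_cast h3
      linarith
    have h5 : (0 : ℤ) ≤ (D.s : ℤ) * D.c := by positivity
    have h6 := mul_le_mul_of_nonneg_left h4 h5
    have h7 : ((D.bF r (5 * (a : ℕ) + b) : ℕ) : ℤ) ≤
        ((2 * (D.s * D.c * D.Bd) + D.BB + 4 * D.L + 2 : ℕ) : ℤ) := by
      rw [h1]
      push_cast
      nlinarith [h6, (by positivity : (0 : ℤ) ≤ (D.L : ℤ))]
    exact_mod_cast h7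
  · have h1 := bF_25 h (r := r)
    have h2 : ((D.bF r 25 : ℕ) : ℤ) ≤ ((2 * (D.s * D.c * D.Bd) + D.BB + 4 * D.L + 2 : ℕ) : ℤ) := by
      rw [h1]
      push_cast
      have h3 : ((r.t : ℕ) : ℤ) ≤ 4 := by exact_mod_cast hr.t
      have h4 : (0 : ℤ) ≤ (D.L : ℤ) := by positivity
      have h5 : (0 : ℤ) ≤ 2 * ((D.s : ℤ) * D.c * D.Bd) := by positivity
      nlinarith
    exact_mod_cast h2
  · have h1 := bF_26 h hr
    have h2 : ((D.bF r 26 : ℕ) : ℤ) ≤ ((2 * (D.s * D.c * D.Bd) + D.BB + 4 * D.L + 2 : ℕ) : ℤ) := by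
      rw [h1]
      push_cast
      have h3 : (0 : ℤ) ≤ ((r.t : ℕ) : ℤ) := by positivity
      have h4 : (0 : ℤ) ≤ (D.L : ℤ) := by positivity
      have h5 : (0 : ℤ) ≤ 2 * ((D.s : ℤ) * D.c * D.Bd) := by positivity
      nlinarith
    exact_mod_cast h2

/-- positivity of the total -/
lemma total_pos {D : Dat} (h : Good D) {r : Cx} (hr : RecOk D r) {x : Ct} (hx : Rep D r x)
    {i0 i1 i2 i3 : ℕ} (h0 : i0 < D.L) (h1 : i1 < D.L) (h2 : i2 < D.L) (h3 : i3 < D.L)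
    (hτ : |(D.L : ℤ) * x.t + ((i0 : ℤ) - 2 * i1 + 2 * i2 - i3)| ≤ 2)
    (hv : ∀ a b, 0 ≤ cval D.s D.c (Qf D.s D.Hf D.u (vs D.u D.vv)) x i0 i1 i2 i3 a b)
    (j : ℕ) (hj : j < 27) :
    2 ^ 19 ≤ D.bF r j + Nat.mul 2 (D.Rn r.y1 i1 j) + Nat.mul 2 (D.Fn r.y2 i2 j) + D.Fn 0 i0 j +
      D.Rn r.y3 i3 j := by
  have hN := h.N.h2
  obtain ⟨hG, hL2, hpe0, hu0⟩ := D.pe_zero h.P h.I
  rw [hx.t] at hτ
  rw [abs_le] at hτ
  have hq := h.N.h6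
  rcases idx_cases hj with ⟨a, b, rfl⟩ | rfl | rfl
  · have e1 := bF_val h hr a b
    have e2 := Rn_val h hr.y1 h1 a b
    have e3 := Fn_val h hr.y2 h2 a b
    have e4 := Fn_val h hG h0 a b
    have e5 := Rn_val h hr.y3 h3 a b
    have e6 := hv a b
    unfold cval at e6
    rw [hx.d, hx.d, hx.y1, hx.y2, hx.y3] at e6
    rw [hpe0] at e4
    have e7 : (((1 : S5).symm a : Fin 5)) = a := rfl
    have e8 : (((1 : S5).symm b : Fin 5)) = b := rfl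
    rw [e7, e8] at e4
    have goal : ((2 ^ 19 : ℕ) : ℤ) ≤ ((D.bF r (5 * (a : ℕ) + b) +
        2 * (D.Rn r.y1 i1 (5 * (a : ℕ) + b)) + 2 * (D.Fn r.y2 i2 (5 * (a : ℕ) + b)) +
        D.Fn 0 i0 (5 * (a : ℕ) + b) + D.Rn r.y3 i3 (5 * (a : ℕ) + b) : ℕ) : ℤ) := by
      push_cast
      rw [e1, e2, e3, e4, e5]
      have hN' : (D.BB : ℤ) + 6 * D.q0 = 524288 := by exact_mod_cast hN
      norm_num
      linarith
    exact_mod_cast goal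
  · have e1 := bF_25 h (r := r)
    have e2 : D.Rn r.y1 i1 25 = D.q0 - i1 := rfl
    have e3 : D.Fn r.y2 i2 25 = D.q0 + i2 := rfl
    have e4 : D.Fn 0 i0 25 = D.q0 + i0 := rfl
    have e5 : D.Rn r.y3 i3 25 = D.q0 - i3 := rfl
    rw [e2, e3, e4, e5]
    change 2 ^ 19 ≤ D.bF r 25 + 2 * (D.q0 - i1) + 2 * (D.q0 + i2) + (D.q0 + i0) + (D.q0 - i3)
    have hN' : (D.BB : ℤ) + 6 * D.q0 = 524288 := by exact_mod_cast hN
    zify [(by omega : i1 ≤ D.q0), (by omega : i3 ≤ D.q0)]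
    rw [e1]
    norm_num
    linarith [hτ.1]
  · have e1 := bF_26 h hr
    have e2 : D.Rn r.y1 i1 26 = D.q0 + i1 := rfl
    have e3 : D.Fn r.y2 i2 26 = D.q0 - i2 := rfl
    have e4 : D.Fn 0 i0 26 = D.q0 - i0 := rfl
    have e5 : D.Rn r.y3 i3 26 = D.q0 + i3 := rfl
    rw [e2, e3, e4, e5]
    change 2 ^ 19 ≤ D.bF r 26 + 2 * (D.q0 + i1) + 2 * (D.q0 - i2) + (D.q0 - i0) + (D.q0 + i3)
    have hN' : (D.BB : ℤ) + 6 * D.q0 = 524288 := by exact_mod_cast hN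
    zify [(by omega : i2 ≤ D.q0), (by omega : i0 ≤ D.q0)]
    rw [e1]
    norm_num
    linarith [hτ.2]

/-- the search reaches the leaf -/
lemma reach {D : Dat} (h : Good D) {T : Tr} {r : Cx} (hr : RecOk D r) {x : Ct} (hx : Rep D r x)
    (hA : D.chkA T r = true)
    {i0 i1 i2 i3 : ℕ} (h0 : i0 < D.L) (h1 : i1 < D.L) (h2 : i2 < D.L) (h3 : i3 < D.L)
    (hτ : |(D.L : ℤ) * x.t + ((i0 : ℤ) - 2 * i1 + 2 * i2 - i3)| ≤ 2)
    (hv : ∀ a b, 0 ≤ cval D.s D.c (Qf D.s D.Hf D.u (vs D.u D.vv)) x i0 i1 i2 i3 a b) :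
    D.leaf T r i0 i1 i2 i3 = true := by
  have hO := h.O
  unfold Dat.chkO at hO
  rw [andr_iff, allr_iff] at hO
  obtain ⟨hO1, hO2⟩ := hO
  have hy1 := hO2 r.y1 (by simpa using hr.y1)
  have hy2 := hO2 r.y2 (by simpa using hr.y2)
  have hy3 := hO2 r.y3 (by simpa using hr.y3)
  rw [andr_iff, andr_iff] at hy1 hy2 hy3
  have hh3 := h.N.h3
  have hBM : D.BM < 2 ^ 20 := by norm_num; omega
  have hBM2 : Nat.mul 2 D.BM < 2 ^ 20 := by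
    change 2 * D.BM < 2 ^ 20
    norm_num; omega
  obtain ⟨g1, hg1, e1, he1, ei1, ev1, gg1, _, b1⟩ := okl_spec hy1.2.2
    (fun i hi j _ => Nat.mul_le_mul_left 2 (Rn_le h.N r.y1 i j hi)) hBM2 i1 h1
  obtain ⟨g2, hg2, e2, he2, ei2, ev2, gg2, mm2, b2⟩ := okl_spec hy2.2.1
    (fun i hi j _ => Nat.mul_le_mul_left 2 (Fn_le h.N r.y2 i j hi)) hBM2 i2 h2
  obtain ⟨g0, hg0, e0, he0, ei0, ev0, gg0, mm0, b0⟩ := okl_spec hO1
    (fun i hi j _ => Fn_le h.N 0 i j hi) hBM i0 h0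
  obtain ⟨g3, hg3, e3, he3, ei3, ev3, gg3, mm3, b3⟩ := okl_spec hy3.1
    (fun i hi j _ => Rn_le h.N r.y3 i j hi) hBM i3 h3
  have hZ := fun j hj => total_pos h hr hx h0 h1 h2 h3 hτ hv j hj
  have hbase := hr.base
  have hbl := fun j hj => bF_le h hr j hj
  have hC : 2 * (D.s * D.c * D.Bd) + D.BB + 4 * D.L + 2 + 6 * D.BM < 2 ^ 20 := by
    norm_num; exact hh3
  have c1e : ∀ j < 27, Nat.mul 2 (D.Rn r.y1 i1 j) ≤ Nat.mul 2 (D.Rn r.y1 i1 j) ∧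
      Nat.mul 2 (D.Rn r.y1 i1 j) ≤ 2 * D.BM := fun j _ =>
    ⟨le_rfl, Nat.mul_le_mul_left 2 (Rn_le h.N r.y1 i1 j h1)⟩
  have c2e : ∀ j < 27, Nat.mul 2 (D.Fn r.y2 i2 j) ≤ Nat.mul 2 (D.Fn r.y2 i2 j) ∧
      Nat.mul 2 (D.Fn r.y2 i2 j) ≤ 2 * D.BM := fun j _ =>
    ⟨le_rfl, Nat.mul_le_mul_left 2 (Fn_le h.N r.y2 i2 j h2)⟩
  have c0e : ∀ j < 27, D.Fn 0 i0 j ≤ D.Fn 0 i0 j ∧ D.Fn 0 i0 j ≤ D.BM := fun j _ =>
    ⟨le_rfl, Fn_le h.N 0 i0 j h0⟩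
  have c3e : ∀ j < 27, D.Rn r.y3 i3 j ≤ D.Rn r.y3 i3 j ∧ D.Rn r.y3 i3 j ≤ D.BM := fun j _ =>
    ⟨le_rfl, Rn_le h.N r.y3 i3 j h3⟩
  have c1g : ∀ j < 27, Nat.mul 2 (D.Rn r.y1 i1 j) ≤ f20 g1.g j ∧ f20 g1.g j ≤ 2 * D.BM :=
    fun j hj => ⟨(b1 j hj).1, (b1 j hj).2.2.1⟩
  have c2g : ∀ j < 27, Nat.mul 2 (D.Fn r.y2 i2 j) ≤ f20 g2.g j ∧ f20 g2.g j ≤ 2 * D.BM :=
    fun j hj => ⟨(b2 j hj).1, (b2 j hj).2.2.1⟩
  have c2m : ∀ j < 27, Nat.mul 2 (D.Fn r.y2 i2 j) ≤ f20 (lk 0 D.mn2 r.y2) j ∧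
      f20 (lk 0 D.mn2 r.y2) j ≤ 2 * D.BM :=
    fun j hj => ⟨(b2 j hj).2.1, (b2 j hj).2.2.2⟩
  have c0g : ∀ j < 27, D.Fn 0 i0 j ≤ f20 g0.g j ∧ f20 g0.g j ≤ D.BM :=
    fun j hj => ⟨(b0 j hj).1, (b0 j hj).2.2.1⟩
  have c0m : ∀ j < 27, D.Fn 0 i0 j ≤ f20 D.mn j ∧ f20 D.mn j ≤ D.BM :=
    fun j hj => ⟨(b0 j hj).2.1, (b0 j hj).2.2.2⟩
  have c3g : ∀ j < 27, D.Rn r.y3 i3 j ≤ f20 g3.g j ∧ f20 g3.g j ≤ D.BM :=
    fun j hj => ⟨(b3 j hj).1, (b3 j hj).2.2.1⟩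
  have c3m : ∀ j < 27, D.Rn r.y3 i3 j ≤ f20 (lk 0 D.mr r.y3) j ∧
      f20 (lk 0 D.mr r.y3) j ≤ D.BM :=
    fun j hj => ⟨(b3 j hj).2.1, (b3 j hj).2.2.2⟩
  unfold Dat.chkA at hA
  rw [h.N.h5] at hA
  have s1 := lvg_imp hg1 he1 hA
    (land_ok hZ hbl hC c1g c2m c0m c3m (by
      change r.base + g1.g + (D.mn + lk 0 D.mr r.y3 + lk 0 D.mn2 r.y2) = _
      rw [← hbase, ← gg1, ← mm2, ← mm0, ← mm3]; ring))
    (land_ok hZ hbl hC c1e c2m c0m c3m (by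
      change r.base + e1.v + (D.mn + lk 0 D.mr r.y3 + lk 0 D.mn2 r.y2) = _
      rw [← hbase, ← mm2, ← mm0, ← mm3, ev1]; ring))
  have s2 := lvg_imp hg2 he2 s1
    (land_ok hZ hbl hC c1e c2g c0m c3m (by
      change r.base + e1.v + g2.g + (D.mn + lk 0 D.mr r.y3) = _
      rw [← hbase, ← gg2, ← mm0, ← mm3, ev1]; ring))
    (land_ok hZ hbl hC c1e c2e c0m c3m (by
      change r.base + e1.v + e2.v + (D.mn + lk 0 D.mr r.y3) = _
      rw [← hbase, ← mm0, ← mm3, ev1, ev2]; ring))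
  have s3 := lvg_imp hg0 he0 s2
    (land_ok hZ hbl hC c1e c2e c0g c3m (by
      change r.base + e1.v + e2.v + g0.g + lk 0 D.mr r.y3 = _
      rw [← hbase, ← gg0, ← mm3, ev1, ev2]))
    (land_ok hZ hbl hC c1e c2e c0e c3m (by
      change r.base + e1.v + e2.v + e0.v + lk 0 D.mr r.y3 = _
      rw [← hbase, ← mm3, ev1, ev2, ev0]))
  have s4 := lvg_imp hg3 he3 s3
    (land_ok hZ hbl hC c1e c2e c0e c3g (by
      change r.base + e1.v + e2.v + e0.v + g3.g + 0 = _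
      rw [← hbase, ← gg3, ev1, ev2, ev0]; ring))
    (land_ok hZ hbl hC c1e c2e c0e c3e (by
      change r.base + e1.v + e2.v + e0.v + e3.v + 0 = _
      rw [← hbase, ev1, ev2, ev0, ev3]; ring))
  rw [ei0, ei1, ei2, ei3] at s4
  exact s4

end Pool.Agent.Q134.NK
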