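import Pool.Agent.Q134.NK.Snd2

/-!
Soundness of the closure.
-/

set_option autoImplicit false

namespace Pool.Agent.Q134.NK

open Finset

lemma f16_pkn (F : ℕ → ℕ) (hF : ∀ j < 5, F j < 65536) (j : ℕ) (hj : j < 5) :
    f16 (pkn 16 F 5) j = F j :=
  fld_pkn 16 (by norm_num) F 5 hF j hj

lemma pkn_f16 (x : ℕ) (hx : x < 2 ^ 80) : x = pkn 16 (f16 x) 5 := pkn_fld 16 5 x hx

lemma pkn5 (w : ℕ) (F : ℕ → ℕ) : pkn w F 5 = F 0 + 2 ^ w * (F 1 + 2 ^ w * (F 2 + 2 ^ w *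
    (F 3 + 2 ^ w * F 4))) := by
  unfold pkn
  simp only [Finset.sum_range_succ, Finset.sum_range_zero]
  ring

lemma rotp_eq (l : List ℕ) (x : ℕ) : rotp l x = pkn 16 (fun a => f16 x (lk 0 l a)) 5 := by
  rw [pkn5]
  rfl

lemma f16_lt (x j : ℕ) : f16 x j < 65536 := Nat.mod_lt _ (by norm_num)

/-- the packed vector of the child -/
lemma cvp_spec {D : Dat} (h : Good D) {r : Cx} (hr : RecOk D r) {x : Ct} (hx : Rep D r x)
    {i0 i1 i2 i3 : ℕ} (h0 : i0 < D.L) (h1 : i1 < D.L) (h2 : i2 < D.L) (h3 : i3 < D.L) :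
    ∃ E : ℕ → ℕ, D.cvp r i0 i1 i2 i3 = pkn 16 E 5 ∧ (∀ j < 5, E j < 65536) ∧
      ∀ b : Fin 5, ((E b : ℕ) : ℤ) = 32768 + cv D.c (vs D.u D.vv) x i0 i1 i2 i3 b := by
  obtain ⟨hG, hL2, hpe0, hu0⟩ := D.pe_zero h.P h.I
  set X := vs D.u D.vv with hX
  have hbd : ∀ b : Fin 5, -(32768 : ℤ) < cv D.c X x i0 i1 i2 i3 b ∧
      cv D.c X x i0 i1 i2 i3 b < 32768 := by
    intro b
    have b0 := X_bd h h0 b
    have b1 := X_bd h h1 (x.y1.symm b)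
    have b2 := X_bd h h2 (x.y2.symm b)
    have b3 := X_bd h h3 (x.y3.symm b)
    have bd := hx.d b
    have c1 := (hr.fd b).1
    have c2 := (hr.fd b).2
    have c1' : (32768 : ℤ) ≤ ((f16 r.d b : ℕ) : ℤ) + D.Bd := by exact_mod_cast c1
    have c2' : ((f16 r.d b : ℕ) : ℤ) ≤ 32768 + D.Bd := by exact_mod_cast c2
    have h4 := h.N.h4
    have h4' : (D.c : ℤ) * D.Bd + 6 * D.bx < 32768 := by exact_mod_cast h4
    have h5 : (0 : ℤ) ≤ D.c := by positivity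
    have h6 : (D.c : ℤ) * x.d b ≤ D.c * D.Bd := mul_le_mul_of_nonneg_left (by linarith) h5
    have h7 : (D.c : ℤ) * (-D.Bd) ≤ D.c * x.d b := mul_le_mul_of_nonneg_left (by linarith) h5
    unfold cv
    constructor
    · linarith [b0.1, b1.2, b2.1, b3.2]
    · linarith [b0.2, b1.1, b2.2, b3.1]
  set E : ℕ → ℕ := fun j => if hj : j < 5 then
    Int.toNat (32768 + cv D.c X x i0 i1 i2 i3 ⟨j, hj⟩) else 0 with hE
  have hEv : ∀ b : Fin 5, ((E b : ℕ) : ℤ) = 32768 + cv D.c X x i0 i1 i2 i3 b := by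
    intro b
    rw [hE]
    simp only [b.isLt, dif_pos, Fin.eta]
    rw [Int.toNat_of_nonneg]
    linarith [(hbd b).1]
  refine ⟨E, ?_, ?_, hEv⟩
  · set F0 : ℕ → ℕ := fun b => if hb : b < 5 then
      Int.toNat (X i0 ((D.pe 0).symm ⟨b, hb⟩) + D.bx) else 0 with hF0
    set F1 : ℕ → ℕ := fun b => if hb : b < 5 then
      Int.toNat (X i1 ((D.pe r.y1).symm ⟨b, hb⟩) + D.bx) else 0 with hF1
    set F2 : ℕ → ℕ := fun b => if hb : b < 5 then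
      Int.toNat (X i2 ((D.pe r.y2).symm ⟨b, hb⟩) + D.bx) else 0 with hF2
    set F3 : ℕ → ℕ := fun b => if hb : b < 5 then
      Int.toNat (X i3 ((D.pe r.y3).symm ⟨b, hb⟩) + D.bx) else 0 with hF3
    have e0 : lk 0 (lk [] D.Xt 0) i0 = pkn 16 F0 5 := Xt_spec h hG h0
    have e1 : lk 0 (lk [] D.Xt r.y1) i1 = pkn 16 F1 5 := Xt_spec h hr.y1 h1
    have e2 : lk 0 (lk [] D.Xt r.y2) i2 = pkn 16 F2 5 := Xt_spec h hr.y2 h2
    have e3 : lk 0 (lk [] D.Xt r.y3) i3 = pkn 16 F3 5 := Xt_spec h hr.y3 h3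
    have ed := pkn_f16 r.d hr.d
    have key : D.c * r.d + lk 0 (lk [] D.Xt 0) i0 + 2 * lk 0 (lk [] D.Xt r.y2) i2 =
        (2 * lk 0 (lk [] D.Xt r.y1) i1 + lk 0 (lk [] D.Xt r.y3) i3 + D.kk) + pkn 16 E 5 := by
      rw [e0, e1, e2, e3, h.N.h9]
      conv_lhs => rw [ed]
      rw [pkn_smul, pkn_smul, pkn_smul, pkn_add, pkn_add, pkn_add, pkn_add, pkn_add]
      apply pkn_congr
      intro j hj
      have v0 : ((F0 j : ℕ) : ℤ) = X i0 ⟨j, hj⟩ + D.bx := by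
        rw [hF0]
        simp only [hj, dif_pos]
        rw [hpe0]
        have : (((1 : S5).symm ⟨j, hj⟩ : Fin 5)) = ⟨j, hj⟩ := rfl
        rw [this, Int.toNat_of_nonneg]
        linarith [(X_bd h h0 ⟨j, hj⟩).1]
      have v1 : ((F1 j : ℕ) : ℤ) = X i1 (x.y1.symm ⟨j, hj⟩) + D.bx := by
        rw [hF1, hx.y1]
        simp only [hj, dif_pos]
        rw [Int.toNat_of_nonneg]
        linarith [(X_bd h h1 ((D.pe r.y1).symm ⟨j, hj⟩)).1]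
      have v2 : ((F2 j : ℕ) : ℤ) = X i2 (x.y2.symm ⟨j, hj⟩) + D.bx := by
        rw [hF2, hx.y2]
        simp only [hj, dif_pos]
        rw [Int.toNat_of_nonneg]
        linarith [(X_bd h h2 ((D.pe r.y2).symm ⟨j, hj⟩)).1]
      have v3 : ((F3 j : ℕ) : ℤ) = X i3 (x.y3.symm ⟨j, hj⟩) + D.bx := by
        rw [hF3, hx.y3]
        simp only [hj, dif_pos]
        rw [Int.toNat_of_nonneg]
        linarith [(X_bd h h3 ((D.pe r.y3).symm ⟨j, hj⟩)).1]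
      have v4 := hEv ⟨j, hj⟩
      have v5 := hx.d ⟨j, hj⟩
      have v6 : ((((D.c - 1) * 32768 : ℕ)) : ℤ) = (D.c - 1) * 32768 := by
        have := h.N.c
        push_cast [Nat.cast_sub this]
        ring
      have goal : ((D.c * f16 r.d j + F0 j + 2 * F2 j : ℕ) : ℤ) =
          ((2 * F1 j + F3 j + (D.c - 1) * 32768 + E j : ℕ) : ℤ) := by
        rw [Nat.cast_add, Nat.cast_add, Nat.cast_mul, Nat.cast_mul, Nat.cast_add, Nat.cast_add,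
          Nat.cast_add, Nat.cast_mul, v0, v1, v2, v3, v4, v6]
        unfold cv
        rw [v5]
        push_cast
        ring
      exact_mod_cast goal
    change D.c * r.d + lk 0 (lk [] D.Xt 0) i0 + 2 * lk 0 (lk [] D.Xt r.y2) i2 -
        (2 * lk 0 (lk [] D.Xt r.y1) i1 + lk 0 (lk [] D.Xt r.y3) i3 + D.kk) = _
    rw [key]
    omega
  · intro j hj
    have h8 := hEv ⟨j, hj⟩
    have h9 := (hbd ⟨j, hj⟩).2
    have h10 : ((E j : ℕ) : ℤ) < ((65536 : ℕ) : ℤ) := by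
      have : ((E j : ℕ) : ℤ) = ((E ((⟨j, hj⟩ : Fin 5) : ℕ) : ℕ) : ℤ) := rfl
      rw [this, h8]
      push_cast
      linarith
    exact_mod_cast h10

lemma bt_flc (b0 b1 b2 : Bool) :
    bt (Nat.add (b2n b0 1) (Nat.add (b2n b1 2) (b2n b2 4))) 0 = b0 ∧
    bt (Nat.add (b2n b0 1) (Nat.add (b2n b1 2) (b2n b2 4))) 1 = b1 ∧
    bt (Nat.add (b2n b0 1) (Nat.add (b2n b1 2) (b2n b2 4))) 2 = b2 := by
  cases b0 <;> cases b1 <;> cases b2 <;> exact ⟨rfl, rfl, rfl⟩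

lemma andr_and (a b : Bool) : andr a b = (a && b) := by cases a <;> cases b <;> rfl

lemma beq_beq (a b : ℕ) : (a == b) = Nat.beq a b := by
  rw [Bool.eq_iff_iff, beq_iff_eq, beq_iff]

lemma find_spec {T : Tr} {y1 y2 y3 f t d : ℕ} (h : find T y1 y2 y3 f t d = true) :
    ∃ r, Tr.In r T ∧ r.y1 = y1 ∧ r.y2 = y2 ∧ r.y3 = y3 ∧ r.f = f ∧ r.t = t ∧ r.d = d := by
  obtain ⟨r, hr, h2⟩ := Tr.memT_imp _ _ _ h
  refine ⟨r, hr, ?_⟩
  unfold eqc at h2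
  simp only [andr_iff, beq_iff] at h2
  exact h2

theorem step {D : Dat} (h : Good D) {T : Tr} (hC : T.allT D.chkR = true)
    (hA : T.allT (D.chkA T) = true) {r : Cx} (hrT : Tr.In r T) {x : Ct} (hx : Rep D r x)
    {i0 i1 i2 i3 : ℕ} (h0 : i0 < D.L) (h1 : i1 < D.L) (h2 : i2 < D.L) (h3 : i3 < D.L)
    (hf0 : x.f0 = true → i0 ≤ i1) (hf1 : x.f1 = true → i1 ≤ i2) (hf2 : x.f2 = true → i2 ≤ i3)
    (hτ : |(D.L : ℤ) * x.t + ((i0 : ℤ) - 2 * i1 + 2 * i2 - i3)| ≤ 2)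
    (hv : ∀ a b, 0 ≤ cval D.s D.c (Qf D.s D.Hf D.u (vs D.u D.vv)) x i0 i1 i2 i3 a b) :
    ∃ r', Tr.In r' T ∧ Rep D r' (chd D.u D.L D.c (vs D.u D.vv) x i0 i1 i2 i3) := by
  have hr := Dat.chkR_spec (Tr.allT_imp _ _ hC r hrT)
  have hleaf := reach (T := T) h hr hx (Tr.allT_imp _ _ hA r hrT) h0 h1 h2 h3 hτ hv
  unfold Dat.leaf at hleaf
  rw [imr_iff] at hleaf
  have hta : ((D.ta r.t i0 i2 : ℕ) : ℤ) = D.L * r.t + i0 + 2 * i2 + 2 := by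
    change ((D.L * r.t + i0 + 2 * i2 + 2 : ℕ) : ℤ) = _
    push_cast; ring
  have htb : ((D.tb i1 i3 : ℕ) : ℤ) = 2 * D.L + 2 * i1 + i3 := by
    change ((2 * D.L + 2 * i1 + i3 : ℕ) : ℤ) = _
    push_cast; ring
  rw [hx.t] at hτ
  rw [abs_le] at hτ
  have hab : D.tb i1 i3 ≤ D.ta r.t i0 i2 := by
    zify
    rw [hta, htb]
    linarith [hτ.1]
  have hab2 : D.ta r.t i0 i2 ≤ D.tb i1 i3 + 4 := by
    zify
    rw [hta, htb]
    linarith [hτ.2]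
  have hfind := hleaf (by
    simp only [andr_iff, imr_iff, ble_iff]
    rw [hx.f0] at hf0
    rw [hx.f1] at hf1
    rw [hx.f2] at hf2
    exact ⟨hf0, hf1, hf2, hab, hab2⟩)
  obtain ⟨r', hr', e1, e2, e3, e4, e5, e6⟩ := find_spec hfind
  refine ⟨r', hr', ?_⟩
  have hy : ∀ y i, y < D.G → i < D.L → D.pe (D.yc i0 y i) = (D.u i0)⁻¹ * (D.pe y * D.u i) := by
    intro y i hy hi
    have m1 := (D.mul_spec h.P h.M hy hi).1
    have m2 := (D.mul_spec h.P h.M m1.1 h0).2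
    unfold Dat.yc
    rw [m2.2, m1.2]
  obtain ⟨E, hE1, hE2, hE3⟩ := cvp_spec h hr hx h0 h1 h2 h3
  have hui := Dat.ui_lt h.M h0
  refine ⟨?_, ?_, ?_, ?_, ?_, ?_, ?_, ?_⟩
  · rw [e1, hy _ _ hr.y1 h1, ← hx.y1]; rfl
  · rw [e2, hy _ _ hr.y2 h2, ← hx.y2]; rfl
  · rw [e3, hy _ _ hr.y3 h3, ← hx.y3]; rfl
  · rw [e4]
    unfold flc
    rw [(bt_flc _ _ _).1, andr_and, ← hx.f0]
    change (x.f0 && i0 == i1) = _
    rw [beq_beq]
  · rw [e4]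
    unfold flc
    rw [(bt_flc _ _ _).2.1, andr_and, ← hx.f1]
    change (x.f1 && i1 == i2) = _
    rw [beq_beq]
  · rw [e4]
    unfold flc
    rw [(bt_flc _ _ _).2.2, andr_and, ← hx.f2]
    change (x.f2 && i2 == i3) = _
    rw [beq_beq]
  · rw [e5]
    change (D.L : ℤ) * x.t + ((i0 : ℤ) - 2 * i1 + 2 * i2 - i3) =
      (((D.ta r.t i0 i2 - D.tb i1 i3 : ℕ)) : ℤ) - 2
    rw [Nat.cast_sub hab, hta, htb, hx.t]
    ring
  · intro a
    rw [e6, rotp_eq, f16_pkn _ (fun j _ => f16_lt _ _) _ a.isLt, hE1]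
    have hp := (D.pe_spec h.P hui a).1
    have hlt : lk 0 (lk [] D.pt (lk 0 D.ui i0)) a < 5 := by
      rw [← hp]
      exact ((D.pe (lk 0 D.ui i0)) a).isLt
    rw [f16_pkn E hE2 _ hlt, ← hp, hE3]
    change cv D.c (vs D.u D.vv) x i0 i1 i2 i3 ((D.u i0) a) = _
    unfold Dat.u
    ring

/-- the root is present -/
noncomputable def rootc (T : Tr) : Bool := find T 0 0 0 7 2 (pkr 16 (fun _ => 32768) 5)

theorem closure {D : Dat} (h : Good D) {T : Tr} (hC : T.allT D.chkR = true)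
    (hA : T.allT (D.chkA T) = true) (hroot : rootc T = true) :
    ∀ q0 q1 q2 q3 : ℕ, q0 ≤ q1 → q1 ≤ q2 → q2 ≤ q3 →
      |(q0 : ℤ) - 2 * q1 + 2 * q2 - q3| ≤ 2 →
      (∀ a b, 0 ≤ val D.s D.Hf (ctx (bw D.u D.L) D.vv q0 q1 q2 q3) a b) →
      ∃ r, Tr.In r T ∧ Rep D r (ctx (bw D.u D.L) D.vv q0 q1 q2 q3) := by
  obtain ⟨hG, hL2, hpe0, hu0⟩ := D.pe_zero h.P h.I
  intro q0 q1 q2 q3 h01 h12 h23 ht hv
  refine near_mem (c := (D.c : ℤ)) (s := (D.s : ℤ)) (H := D.Hf) hL2 ?_ (bw_zero _ _)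
    (fun q j hj => bw_block hL2 hu0 q j hj) (D.X_spec h.P h.M h.X).2
    (D.H_spec h.P h.M h.X h.B h.H h.N.h11).2.1
    (fun x => ∃ r, Tr.In r T ∧ Rep D r x) ?_ ?_ q3 q0 q1 q2 q3 rfl h01 h12 h23 ht hv
  · have := h.N.c
    exact_mod_cast this
  · intro x y1 y2 y3 f0 f1 f2 t d
    obtain ⟨r, hr, e1, e2, e3, e4, e5, e6⟩ := find_spec hroot
    refine ⟨r, hr, ?_, ?_, ?_, ?_, ?_, ?_, ?_, ?_⟩
    · rw [y1, e1, hpe0]
    · rw [y2, e2, hpe0]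
    · rw [y3, e3, hpe0]
    · rw [f0, e4]; rfl
    · rw [f1, e4]; rfl
    · rw [f2, e4]; rfl
    · rw [t, e5]; norm_num
    · intro a
      rw [d, e6, pkr_eq, f16_pkn _ (fun _ _ => by norm_num) _ a.isLt]
      simp
  · rintro x ⟨r, hrT, hx⟩ i0 h0 i1 h1 i2 h2 i3 h3 hf0 hf1 hf2 hτ hv
    exact step h hC hA hrT hx h0 h1 h2 h3 hf0 hf1 hf2 hτ hv

end Pool.Agent.Q134.NK
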