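import Pool.Agent.Q134.NK.Snd3

/-!
Soundness of the test at the level of the letters, and the final theorem.
-/

set_option autoImplicit false

namespace Pool.Agent.Q134.NK

open Finset

/-! ### tables of the letters -/

noncomputable def walk (row : List ℕ) : List ℕ → List ℕ → ℕ → Bool :=
  @List.rec ℕ (fun _ => List ℕ → ℕ → Bool)
    (fun pl _ => @List.rec ℕ (fun _ => Bool) true (fun _ _ _ => false) pl)
    (fun b _ ih pl cur => @List.rec ℕ (fun _ => Bool) false (fun x tl _ =>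
      andr (Nat.beq x cur) (ih tl (Nat.add cur (Nat.pow 2 (Nat.mul 12 (lk 0 row b)))))) pl)

lemma walk_spec (row : List ℕ) : ∀ (B pl : List ℕ) (cur : ℕ), walk row B pl cur = true →
    pl.length = B.length ∧ (0 < B.length → lk 0 pl 0 = cur) ∧
    ∀ o, o + 1 < B.length → lk 0 pl (o + 1) = lk 0 pl o + 2 ^ (12 * lk 0 row (lk 0 B o)) := by
  intro B
  induction B with
  | nil =>
    intro pl cur h
    cases pl with
    | nil => exact ⟨rfl, by simp, by simp⟩
    | cons x tl => exact absurd h (by intro h'; cases h')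
  | cons b tb ih =>
    intro pl cur h
    cases pl with
    | nil => exact absurd h (by intro h'; cases h')
    | cons x tl =>
      have h' : andr (Nat.beq x cur)
        (walk row tb tl (cur + 2 ^ (12 * lk 0 row b))) = true := h
      rw [andr_iff, beq_iff] at h'
      obtain ⟨h1, h2⟩ := h'
      obtain ⟨h3, h4, h5⟩ := ih tl _ h2
      refine ⟨by simp [h3], fun _ => h1, ?_⟩
      intro o ho
      simp only [List.length_cons] at ho
      cases o with
      | zero =>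
        have := h4 (by omega)
        change lk 0 tl 0 = x + 2 ^ (12 * lk 0 row b)
        rw [this, h1]
      | succ o =>
        exact h5 o (by omega)

noncomputable def idxall (f : ℕ → ℕ → Bool) : List ℕ → ℕ → Bool :=
  @List.rec ℕ (fun _ => ℕ → Bool) (fun _ => true)
    (fun x _ ih n => andr (f n x) (ih (Nat.succ n)))

lemma idxall_spec (f : ℕ → ℕ → Bool) : ∀ (l : List ℕ) (n : ℕ), idxall f l n = true →
    ∀ o < l.length, f (n + o) (lk 0 l o) = true := by
  intro l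
  induction l with
  | nil => intro n _ o ho; simp at ho
  | cons x tl ih =>
    intro n h o ho
    have h' : andr (f n x) (idxall f tl (n + 1)) = true := h
    rw [andr_iff] at h'
    cases o with
    | zero => exact h'.1
    | succ o =>
      have := ih (n + 1) h'.2 o (by simpa using ho)
      have e : n + (o + 1) = n + 1 + o := by omega
      rw [e]
      exact this

/-- parities of the fields -/
noncomputable def parp (x : ℕ) : ℕ :=
  Nat.add (b2n (bt x 0) 1) (Nat.add (b2n (bt x 12) 2) (Nat.add (b2n (bt x 24) 4)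
    (Nat.add (b2n (bt x 36) 8) (b2n (bt x 48) 16))))

noncomputable def pk64 (c : ℕ) (l : List ℕ) : ℕ :=
  @List.rec ℕ (fun _ => ℕ) 0 (fun x _ ih => Nat.add (Nat.add x c) (Nat.mul (Nat.pow 2 64) ih)) l

lemma pkn_succ' (w : ℕ) (F : ℕ → ℕ) (n : ℕ) :
    pkn w F (n + 1) = F 0 + 2 ^ w * pkn w (fun j => F (j + 1)) n := by
  unfold pkn
  rw [Finset.sum_range_succ', Finset.mul_sum, Nat.add_comm, Nat.mul_zero, pow_zero, Nat.mul_one]
  have : ∀ i ∈ range n, F (i + 1) * 2 ^ (w * (i + 1)) = 2 ^ w * (F (i + 1) * 2 ^ (w * i)) := by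
    intro i _
    rw [Nat.mul_succ, pow_add]
    ring
  rw [Finset.sum_congr rfl this]

lemma pk64_cons (c x : ℕ) (tl : List ℕ) :
    pk64 c (x :: tl) = Nat.add (Nat.add x c) (Nat.mul (Nat.pow 2 64) (pk64 c tl)) := rfl

lemma pk64_eq (c : ℕ) (l : List ℕ) : pk64 c l = pkn 64 (fun j => lk 0 l j + c) l.length := by
  induction l with
  | nil => rfl
  | cons x tl ih =>
    rw [pk64_cons, ih, List.length_cons, pkn_succ']
    exact rfl

noncomputable def Dat.chkL (D : Dat) : Bool :=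
  andr (Nat.beq D.B.length D.m) (andr (Nat.ble (Nat.succ D.m) 1024)
  (andr (Nat.beq D.bs (pkr 12 (fun _ => 1024) 5))
  (andr (Nat.beq D.on (pkr 64 (fun _ => 1) D.m))
  (andr (Nat.beq D.k1 (pkr 64 (fun _ => 9223372036854775807) D.m))
  (andr (Nat.beq D.k2 (pkr 64 (fun _ => 9223372036854775808) D.m))
  (allr (fun y => andr (walk (lk [] D.pt y) D.B (lk [] D.pl y) 0)
    (andr (idxall (fun o x => anyr (fun e => andr (Nat.beq e.i o) (Nat.beq e.v x))
      (lk [] (lk [] D.z3 y) (parp x))) (lk [] D.pl y) 0)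
    (andr (Nat.beq (lk 0 D.pa y) (Nat.mul (pk64 4611686018427387904 (lk [] D.pl y))
        (Nat.pow 2 (Nat.mul 64 (Nat.mul 2 D.m)))))
      (Nat.beq (lk 0 D.pb y) (pk64 (Nat.add 4611686018427387904 D.bs) (lk [] D.pl y))))))
    (List.range D.G)))))))

/-- counts in the frame of a letter -/
noncomputable def Dat.PN (D : Dat) (y o b : ℕ) : ℕ :=
  if hb : b < 5 then (ls D.Bf o ((D.pe y).symm ⟨b, hb⟩)).toNat else 0

lemma ls_nonneg (B : ℕ → Fin 5) (o : ℕ) (a : Fin 5) : 0 ≤ ls B o a := by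
  induction o with
  | zero => exact le_rfl
  | succ o ih =>
    rw [ls]
    simp only [Pi.add_apply]
    have : 0 ≤ ee (B o) a := by unfold ee; split <;> norm_num
    linarith

lemma ls_le (B : ℕ → Fin 5) (o : ℕ) (a : Fin 5) : ls B o a ≤ o := by
  induction o with
  | zero => exact le_rfl
  | succ o ih =>
    rw [ls]
    simp only [Pi.add_apply]
    have : ee (B o) a ≤ 1 := by unfold ee; split <;> norm_num
    push_cast
    linarith

lemma PN_val (D : Dat) (y o : ℕ) (b : Fin 5) :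
    ((D.PN y o b : ℕ) : ℤ) = ls D.Bf o ((D.pe y).symm b) := by
  unfold Dat.PN
  rw [dif_pos b.isLt, Int.toNat_of_nonneg (ls_nonneg _ _ _)]

lemma PN_le (D : Dat) (y o b : ℕ) : D.PN y o b ≤ o := by
  unfold Dat.PN
  split
  · have := ls_le D.Bf o ((D.pe y).symm ⟨b, by assumption⟩)
    omega
  · omega

structure Lets (D : Dat) : Prop where
  m : D.m < 1024
  bs : D.bs = pkn 12 (fun _ => 1024) 5
  on : D.on = pkn 64 (fun _ => 1) D.m
  k1 : D.k1 = pkn 64 (fun _ => 2 ^ 63 - 1) D.m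
  k2 : D.k2 = pkn 64 (fun _ => 2 ^ 63) D.m
  len : ∀ y < D.G, (lk [] D.pl y).length = D.m
  pl : ∀ y < D.G, ∀ o < D.m, lk 0 (lk [] D.pl y) o = pkn 12 (D.PN y o) 5
  z3 : ∀ y < D.G, ∀ o < D.m, ∃ e ∈ lk [] (lk [] D.z3 y) (parp (lk 0 (lk [] D.pl y) o)),
    e.i = o ∧ e.v = lk 0 (lk [] D.pl y) o
  pa : ∀ y < D.G, lk 0 D.pa y = pkn 64 (fun j => lk 0 (lk [] D.pl y) j + 2 ^ 62) D.m *
    2 ^ (64 * (2 * D.m))
  pb : ∀ y < D.G, lk 0 D.pb y = pkn 64 (fun j => lk 0 (lk [] D.pl y) j + (2 ^ 62 + D.bs)) D.m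

lemma Dat.chkL_spec {D : Dat} (h : Good D) (hL : D.chkL = true) : Lets D := by
  unfold Dat.chkL at hL
  simp only [andr_iff, beq_iff, ble_iff, allr_iff] at hL
  obtain ⟨h1, h2, h3, h4, h5, h6, h7⟩ := hL
  have hlen : ∀ y < D.G, (lk [] D.pl y).length = D.m := by
    intro y hy
    have := (walk_spec _ _ _ _ (h7 y (by simpa using hy)).1).1
    rw [this, h1]
  refine ⟨h2, by rw [h3, pkr_eq], by rw [h4, pkr_eq], ?_, ?_, hlen, ?_, ?_, ?_, ?_⟩
  · rw [h5, pkr_eq]; norm_num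
  · rw [h6, pkr_eq]; norm_num
  · intro y hy o
    obtain ⟨w1, w2, w3⟩ := walk_spec _ _ _ _ (h7 y (by simpa using hy)).1
    rw [h1] at w2 w3
    have hB := h.B
    unfold Dat.chkB at hB
    rw [andr_iff, andr_iff, allr_iff, allr_iff, allr_iff] at hB
    induction o with
    | zero =>
      intro ho
      rw [w2 ho]
      unfold pkn
      symm
      apply Finset.sum_eq_zero
      intro j _
      have : D.PN y 0 j = 0 := by
        have := PN_le D y 0 j
        omega
      rw [this]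
      ring
    | succ o ih =>
      intro ho
      rw [w3 o ho, ih (by omega)]
      have h8 := hB.2.1 o (by simp; omega)
      rw [andr_iff, ble_iff] at h8
      have h9 : lk 0 D.B o < 5 := by omega
      have hbo : ((D.Bf o : Fin 5) : ℕ) = lk 0 D.B o := by
        show lk 0 D.B o % 5 = _
        omega
      have h10 := (D.pe_spec h.P hy (D.Bf o)).1
      rw [hbo] at h10
      rw [← h10]
      set a := (D.pe y) (D.Bf o) with ha
      have e1 : (2 : ℕ) ^ (12 * (a : ℕ)) = pkn 12 (fun j => if j = (a : ℕ) then 1 else 0) 5 := by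
        unfold pkn
        rw [Finset.sum_eq_single (a : ℕ)]
        · simp
        · intro j _ hj
          simp [hj]
        · intro hj
          exact absurd (Finset.mem_range.mpr a.isLt) hj
      rw [e1, pkn_add]
      apply pkn_congr
      intro j hj
      have h11 := PN_val D y (o + 1) ⟨j, hj⟩
      have h12 := PN_val D y o ⟨j, hj⟩
      rw [ls] at h11
      simp only [Pi.add_apply] at h11
      have h13 : ee (D.Bf o) ((D.pe y).symm ⟨j, hj⟩) = ((if j = (a : ℕ) then 1 else 0 : ℕ) : ℤ) := by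
        unfold ee
        by_cases hh : j = (a : ℕ)
        · rw [if_pos hh, if_pos]
          · norm_num
          · rw [Equiv.symm_apply_eq]
            apply Fin.ext
            exact hh
        · rw [if_neg hh, if_neg]
          · norm_num
          · intro h14
            rw [Equiv.symm_apply_eq] at h14
            apply hh
            exact congrArg Fin.val h14
      have goal : ((D.PN y o j + (if j = (a : ℕ) then 1 else 0) : ℕ) : ℤ) =
          ((D.PN y (o + 1) j : ℕ) : ℤ) := by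
        have h11' : ((D.PN y (o + 1) j : ℕ) : ℤ) = _ := h11
        have h12' : ((D.PN y o j : ℕ) : ℤ) = _ := h12
        rw [Nat.cast_add, h11', h12', h13]
      exact_mod_cast goal
  · intro y hy o ho
    have h8 := (h7 y (by simpa using hy)).2.1
    have h9 := idxall_spec _ _ _ h8 o (by rw [hlen y hy]; exact ho)
    obtain ⟨e, he, he2⟩ := anyr_imp _ _ h9
    rw [andr_iff, beq_iff, beq_iff] at he2
    refine ⟨e, he, ?_, he2.2⟩
    omega
  · intro y hy
    have h8 := (h7 y (by simpa using hy)).2.2.1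
    rw [h8, pk64_eq, hlen y hy]
    rfl
  · intro y hy
    have h8 := (h7 y (by simpa using hy)).2.2.2
    rw [h8, pk64_eq, hlen y hy]
    rfl

/-! ### the slow test -/

lemma scan_spec (f o0 o3 h bp : ℕ) : ∀ (l1 l2 : List ℕ) (o1 o2 : ℕ),
    scan f o0 o3 h bp l1 l2 o1 o2 = true → ∀ n, n < l1.length → n < l2.length →
      lk 0 l2 n + h = lk 0 l1 n + bp → viol f o0 (o1 + n) (o2 + n) o3 = true := by
  intro l1
  induction l1 with
  | nil => intro l2 o1 o2 _ n hn; simp at hn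
  | cons a ta ih =>
    intro l2 o1 o2 hs n hn1 hn2 heq
    cases l2 with
    | nil => simp at hn2
    | cons b tb =>
      have e : scan f o0 o3 h bp (a :: ta) (b :: tb) o1 o2 =
        @Bool.rec (fun _ => Bool) (scan f o0 o3 h bp ta tb (o1 + 1) (o2 + 1))
          (andr (viol f o0 o1 o2 o3) (scan f o0 o3 h bp ta tb (o1 + 1) (o2 + 1)))
          (Nat.beq (b + h) (a + bp)) := rfl
      rw [e] at hs
      have hrest : scan f o0 o3 h bp ta tb (o1 + 1) (o2 + 1) = true := by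
        cases hb : Nat.beq (b + h) (a + bp)
        · rw [hb] at hs; exact hs
        · rw [hb] at hs
          have hs' : andr (viol f o0 o1 o2 o3)
            (scan f o0 o3 h bp ta tb (o1 + 1) (o2 + 1)) = true := hs
          rw [andr_iff] at hs'
          exact hs'.2
      cases n with
      | zero =>
        have heq' : b + h = a + bp := heq
        have hb : Nat.beq (b + h) (a + bp) = true := by rw [beq_iff]; exact heq'
        rw [hb] at hs
        have hs' : andr (viol f o0 o1 o2 o3)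
          (scan f o0 o3 h bp ta tb (o1 + 1) (o2 + 1)) = true := hs
        rw [andr_iff] at hs'
        exact hs'.1
      | succ n =>
        have := ih tb (o1 + 1) (o2 + 1) hrest n (by simpa using hn1) (by simpa using hn2) heq
        have e1 : o1 + (n + 1) = o1 + 1 + n := by omega
        have e2 : o2 + (n + 1) = o2 + 1 + n := by omega
        rw [e1, e2]
        exact this

lemma lk_drop (l : List ℕ) (k n : ℕ) : lk 0 (l.drop k) n = lk 0 l (k + n) := by
  rw [lk_eq, lk_eq]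
  simp [List.getD_eq_getElem?_getD, List.getElem?_drop]

lemma slow_spec {f o0 o3 h bp e m' : ℕ} {l1 l2 : List ℕ}
    (hs : slow f o0 o3 h bp l1 l2 e m' = true) {o1 o2 : ℕ} (h1 : o1 < l1.length)
    (h2 : o2 < l2.length) (he : e + o1 = m' + o2) (heq : lk 0 l2 o2 + h = lk 0 l1 o1 + bp) :
    viol f o0 o1 o2 o3 = true := by
  unfold slow at hs
  rw [drp_eq, drp_eq] at hs
  have a1 : Nat.sub m' e = m' - e := rfl
  have a2 : Nat.sub e m' = e - m' := rfl
  rw [a1, a2] at hs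
  have h3 := scan_spec _ _ _ _ _ _ _ _ _ hs (o1 - (m' - e)) (by rw [List.length_drop]; omega)
    (by rw [List.length_drop]; omega) (by
      rw [lk_drop, lk_drop]
      have b1 : e - m' + (o1 - (m' - e)) = o2 := by omega
      have b2 : m' - e + (o1 - (m' - e)) = o1 := by omega
      rw [b1, b2]
      exact heq)
  have b1 : e - m' + (o1 - (m' - e)) = o2 := by omega
  have b2 : m' - e + (o1 - (m' - e)) = o1 := by omega
  rw [b1, b2] at h3
  exact h3

lemma viol_false {f o0 o1 o2 o3 : ℕ} (h0 : bt f 0 = true → o0 ≤ o1) (h1 : bt f 1 = true → o1 ≤ o2)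
    (h2 : bt f 2 = true → o2 ≤ o3) : viol f o0 o1 o2 o3 ≠ true := by
  intro h
  unfold viol at h
  rw [imr_iff] at h
  have := h (by
    simp only [andr_iff, imr_iff, ble_iff]
    exact ⟨h0, h1, h2⟩)
  exact absurd this (by simp)

/-! ### the record test at the level of the letters -/

noncomputable def f12 (x j : ℕ) : ℕ := Nat.mod (Nat.shiftRight x (Nat.mul 12 j)) 4096

lemma pkn_f12 (x : ℕ) (hx : x < 2 ^ 60) : x = pkn 12 (f12 x) 5 := pkn_fld 12 5 x hx

lemma f12_lt (x j : ℕ) : f12 x j < 4096 := Nat.mod_lt _ (by norm_num)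

noncomputable def Dat.chkS (D : Dat) (r : Cx) : Bool :=
  andr (Nat.ble (Nat.succ r.cc) (Nat.pow 2 60))
  (andr (allr (fun a => Nat.beq (Nat.add (Nat.add (Nat.mul 5 (f12 r.cc a)) (Nat.mul D.k 32768))
      (Nat.mul 2 D.m))
    (Nat.add (Nat.add (Nat.mul D.k (f16 r.d a)) (Nat.mul D.m r.t)) 5120)) (List.range 5))
  (andr (Nat.beq r.cp (parp r.cc))
  (Nat.beq (Nat.add r.e0 (Nat.add (f12 r.cc 0) (Nat.add (f12 r.cc 1) (Nat.add (f12 r.cc 2)
    (Nat.add (f12 r.cc 3) (f12 r.cc 4)))))) (Nat.add (Nat.mul 4 D.m) 5120))))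

def encb (b0 b1 b2 b3 b4 : Bool) : ℕ := b0.toNat + 2 * b1.toNat + 4 * b2.toNat + 8 * b3.toNat +
  16 * b4.toNat

lemma b2n_eq (b : Bool) (n : ℕ) : b2n b n = n * b.toNat := by cases b <;> simp [b2n]

lemma parp_eq (x : ℕ) : parp x = encb (bt x 0) (bt x 12) (bt x 24) (bt x 36) (bt x 48) := by
  unfold parp encb
  simp only [b2n_eq, Nat.add_eq]
  ring

lemma xor_encb : ∀ a0 a1 a2 a3 a4 b0 b1 b2 b3 b4 : Bool,
    Nat.xor (encb a0 a1 a2 a3 a4) (encb b0 b1 b2 b3 b4) =
      encb (a0 ^^ b0) (a1 ^^ b1) (a2 ^^ b2) (a3 ^^ b3) (a4 ^^ b4) := by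
  decide +kernel

lemma parp_lt (x : ℕ) : parp x < 32 := by
  rw [parp_eq]
  unfold encb
  have := Bool.toNat_le (bt x 0)
  have := Bool.toNat_le (bt x 12)
  have := Bool.toNat_le (bt x 24)
  have := Bool.toNat_le (bt x 36)
  have := Bool.toNat_le (bt x 48)
  omega

lemma bt_pkn (F : ℕ → ℕ) (hF : ∀ j < 5, F j < 2 ^ 12) (j : ℕ) (hj : j < 5) :
    bt (pkn 12 F 5) (12 * j) = decide (F j % 2 = 1) := by
  rw [bt_eq, testBit_pkn 12 (by norm_num) F 5 hF]
  have e1 : 12 * j / 12 = j := by omega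
  have e2 : 12 * j % 12 = 0 := by omega
  rw [e1, e2, Nat.testBit_zero]
  simp [hj]

lemma par_xor {F G K : ℕ → ℕ} (hF : ∀ j < 5, F j < 2 ^ 12) (hG : ∀ j < 5, G j < 2 ^ 12)
    (hK : ∀ j < 5, K j < 2 ^ 12) (h : ∀ j < 5, (F j + G j + K j) % 2 = 0) :
    Nat.xor (parp (pkn 12 F 5)) (parp (pkn 12 G 5)) = parp (pkn 12 K 5) := by
  have key : ∀ j < 5, (bt (pkn 12 F 5) (12 * j) ^^ bt (pkn 12 G 5) (12 * j)) =
      bt (pkn 12 K 5) (12 * j) := by
    intro j hj
    rw [bt_pkn F hF j hj, bt_pkn G hG j hj, bt_pkn K hK j hj]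
    have h1 := h j hj
    rcases Nat.mod_two_eq_zero_or_one (F j) with a | a <;>
    rcases Nat.mod_two_eq_zero_or_one (G j) with b | b <;>
    rcases Nat.mod_two_eq_zero_or_one (K j) with c | c <;>
    first
    | (exfalso; omega)
    | (rw [a, b, c]; rfl)
  rw [parp_eq, parp_eq, parp_eq, xor_encb]
  have k0 := key 0 (by norm_num)
  have k1 := key 1 (by norm_num)
  have k2 := key 2 (by norm_num)
  have k3 := key 3 (by norm_num)
  have k4 := key 4 (by norm_num)
  norm_num at k0 k1 k2 k3 k4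
  rw [k0, k1, k2, k3, k4]

lemma pkn12_lt (F : ℕ → ℕ) (hF : ∀ j < 5, F j < 2 ^ 12) : pkn 12 F 5 < 2 ^ 60 := pkn_lt 12 F 5 hF

theorem fin_ok {D : Dat} (h : Good D) (hL : Lets D) {r : Cx} (hr : RecOk D r)
    (hS : D.chkS r = true) (hF : D.chkF r = true) {x : Ct} (hx : Rep D r x)
    {o0 o1 o2 o3 : ℕ} (h0 : o0 < D.m) (h1 : o1 < D.m) (h2 : o2 < D.m) (h3 : o3 < D.m)
    (hf0 : x.f0 = true → o0 ≤ o1) (hf1 : x.f1 = true → o1 ≤ o2) (hf2 : x.f2 = true → o2 ≤ o3)
    (hnd : ¬ (x.f0 = true ∧ x.f1 = true ∧ x.f2 = true ∧ o0 = o3)) :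
    ¬ ∀ a, (D.k : ℤ) * x.d a + D.m * x.t + 5 * ov D.Bf x o0 o1 o2 o3 a = 0 := by
  intro heq
  obtain ⟨hG, hL2, hpe0, hu0⟩ := D.pe_zero h.P h.I
  unfold Dat.chkS at hS
  simp only [andr_iff, beq_iff, ble_iff, allr_iff] at hS
  obtain ⟨s1, s2, s3, s4⟩ := hS
  have hm := hL.m
  -- the relation in natural numbers
  have hrel : ∀ j < 5, f12 r.cc j + D.PN 0 o0 j + 2 * D.PN r.y2 o2 j =
      1024 + 2 * D.PN r.y1 o1 j + D.PN r.y3 o3 j := by
    intro j hj
    have e1 := s2 j (by simpa using hj)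
    have e1' : 5 * f12 r.cc j + D.k * 32768 + 2 * D.m = D.k * f16 r.d j + D.m * r.t + 5120 := e1
    have e2 := heq ⟨j, hj⟩
    unfold ov at e2
    have p0 := PN_val D 0 o0 ⟨j, hj⟩
    have p1 := PN_val D r.y1 o1 ⟨j, hj⟩
    have p2 := PN_val D r.y2 o2 ⟨j, hj⟩
    have p3 := PN_val D r.y3 o3 ⟨j, hj⟩
    rw [hpe0] at p0
    have q0 : ((1 : S5).symm ⟨j, hj⟩ : Fin 5) = ⟨j, hj⟩ := rfl
    rw [q0] at p0
    rw [hx.y1, hx.y2, hx.y3, ← p0, ← p1, ← p2, ← p3, hx.d, hx.t] at e2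
    have e3 : (5 : ℤ) * ((f12 r.cc j : ℕ) : ℤ) + D.k * 32768 + 2 * D.m =
        D.k * ((f16 r.d j : ℕ) : ℤ) + D.m * ((r.t : ℕ) : ℤ) + 5120 := by exact_mod_cast e1'
    have e4 : (5 : ℤ) * (((f12 r.cc j : ℕ) : ℤ) + ((D.PN 0 o0 j : ℕ) : ℤ) +
        2 * ((D.PN r.y2 o2 j : ℕ) : ℤ)) =
        5 * (1024 + 2 * ((D.PN r.y1 o1 j : ℕ) : ℤ) + ((D.PN r.y3 o3 j : ℕ) : ℤ)) := by
      have e2' : (D.k : ℤ) * (((f16 r.d j : ℕ) : ℤ) - 32768) + D.m * (((r.t : ℕ) : ℤ) - 2) +
        5 * (((D.PN 0 o0 j : ℕ) : ℤ) - 2 * ((D.PN r.y1 o1 j : ℕ) : ℤ) +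
          2 * ((D.PN r.y2 o2 j : ℕ) : ℤ) - ((D.PN r.y3 o3 j : ℕ) : ℤ)) = 0 := e2
      linear_combination e3 + e2'
    have e5 : (((f12 r.cc j : ℕ) : ℤ) + ((D.PN 0 o0 j : ℕ) : ℤ) +
        2 * ((D.PN r.y2 o2 j : ℕ) : ℤ)) =
        (1024 + 2 * ((D.PN r.y1 o1 j : ℕ) : ℤ) + ((D.PN r.y3 o3 j : ℕ) : ℤ)) := by linarith
    exact_mod_cast e5
  have l0 := fun j => PN_le D 0 o0 j
  have l1 := fun j => PN_le D r.y1 o1 j
  have l2 := fun j => PN_le D r.y2 o2 j
  have l3 := fun j => PN_le D r.y3 o3 j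
  set hh : ℕ → ℕ := fun j => 1024 + D.PN r.y1 o1 j - D.PN r.y2 o2 j with hhh
  have e0v := hL.pl 0 hG o0 h0
  have e1v := hL.pl r.y1 hr.y1 o1 h1
  have e2v := hL.pl r.y2 hr.y2 o2 h2
  have e3v := hL.pl r.y3 hr.y3 o3 h3
  have ecc := pkn_f12 r.cc s1
  obtain ⟨x0, hx0, x0i, x0v⟩ := hL.z3 0 hG o0 h0
  obtain ⟨x3, hx3, x3i, x3v⟩ := hL.z3 r.y3 hr.y3 o3 h3
  -- the class of the last point
  have hpar : Nat.xor (parp (lk 0 (lk [] D.pl 0) o0)) r.cp = parp (lk 0 (lk [] D.pl r.y3) o3) := by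
    rw [s3, e0v, e3v]
    conv_lhs => rw [ecc]
    apply par_xor
    · intro j _
      have := l0 j
      omega
    · intro j _
      exact f12_lt _ _
    · intro j _
      have := l3 j
      omega
    · intro j hj
      have := hrel j hj
      omega
  -- the half
  have hhalf : Nat.shiftRight (Nat.sub (Nat.add (Nat.add r.cc x0.v) D.bs) x3.v) 1 =
      pkn 12 hh 5 := by
    have e1 : r.cc + x0.v + D.bs = 2 * pkn 12 hh 5 + x3.v := by
      rw [x0v, x3v, e0v, e3v, hL.bs]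
      conv_lhs => rw [ecc]
      rw [pkn_smul, pkn_add, pkn_add, pkn_add]
      apply pkn_congr
      intro j hj
      have a1 := hrel j hj
      have a2 := l2 j
      show f12 r.cc j + D.PN 0 o0 j + 1024 =
        2 * (1024 + D.PN r.y1 o1 j - D.PN r.y2 o2 j) + D.PN r.y3 o3 j
      omega
    change (r.cc + x0.v + D.bs - x3.v) >>> 1 = _
    rw [e1, Nat.shiftRight_eq_div_pow]
    omega
  -- the alignment
  have halign : Nat.shiftRight (Nat.sub (Nat.add r.e0 x3.i) x0.i) 1 = 2 * D.m + o2 - o1 := by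
    have t0 := ls_sum D.Bf o0
    have t1 := ls_sum D.Bf o1
    have t2 := ls_sum D.Bf o2
    have t3 := ls_sum D.Bf o3
    have sums : ∀ y o, (∑ b : Fin 5, ((D.PN y o b : ℕ) : ℤ)) = o := by
      intro y o
      have : (∑ b : Fin 5, ((D.PN y o b : ℕ) : ℤ)) = ∑ b : Fin 5, ls D.Bf o ((D.pe y).symm b) :=
        Finset.sum_congr rfl (fun b _ => PN_val D y o b)
      rw [this, av_sum, ls_sum]
    have u0 := sums 0 o0
    have u1 := sums r.y1 o1
    have u2 := sums r.y2 o2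
    have u3 := sums r.y3 o3
    simp only [Fin.sum_univ_five] at u0 u1 u2 u3
    have v0 : D.PN 0 o0 0 + D.PN 0 o0 1 + D.PN 0 o0 2 + D.PN 0 o0 3 + D.PN 0 o0 4 = o0 := by
      exact_mod_cast u0
    have v1 : D.PN r.y1 o1 0 + D.PN r.y1 o1 1 + D.PN r.y1 o1 2 + D.PN r.y1 o1 3 +
      D.PN r.y1 o1 4 = o1 := by exact_mod_cast u1
    have v2 : D.PN r.y2 o2 0 + D.PN r.y2 o2 1 + D.PN r.y2 o2 2 + D.PN r.y2 o2 3 +
      D.PN r.y2 o2 4 = o2 := by exact_mod_cast u2
    have v3 : D.PN r.y3 o3 0 + D.PN r.y3 o3 1 + D.PN r.y3 o3 2 + D.PN r.y3 o3 3 +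
      D.PN r.y3 o3 4 = o3 := by exact_mod_cast u3
    have w0 := hrel 0 (by norm_num)
    have w1 := hrel 1 (by norm_num)
    have w2 := hrel 2 (by norm_num)
    have w3 := hrel 3 (by norm_num)
    have w4 := hrel 4 (by norm_num)
    have s4' : r.e0 + (f12 r.cc 0 + (f12 r.cc 1 + (f12 r.cc 2 + (f12 r.cc 3 + f12 r.cc 4)))) =
      4 * D.m + 5120 := s4
    obtain ⟨F, hFs⟩ : ∃ F, F = f12 r.cc 0 + (f12 r.cc 1 + (f12 r.cc 2 + (f12 r.cc 3 +
      f12 r.cc 4))) := ⟨_, rfl⟩
    rw [← hFs] at s4'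
    have hsum : F + o0 + 2 * o2 = 5120 + 2 * o1 + o3 := by
      rw [hFs]
      linarith only [v0, v1, v2, v3, w0, w1, w2, w3, w4]
    clear hFs w0 w1 w2 w3 w4 v0 v1 v2 v3 u0 u1 u2 u3 sums t0 t1 t2 t3
    change (r.e0 + x3.i - x0.i) >>> 1 = _
    rw [x3i, x0i, Nat.shiftRight_eq_div_pow, pow_one]
    clear hhalf hpar hx0 hx3 x0i x0v x3i x3v ecc e0v e1v e2v e3v hrel heq s1 s2 s3 s4
    omega
  have hFF : D.pair r (pkn 12 hh 5) (2 * D.m + o2 - o1) x0 x3 = true := by
    unfold Dat.chkF at hF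
    rw [allr_iff] at hF
    have g1 := hF (parp (lk 0 (lk [] D.pl 0) o0)) (by
      have := parp_lt (lk 0 (lk [] D.pl 0) o0)
      simpa using this)
    rw [allr_iff] at g1
    have g2 := g1 x0 hx0
    rw [allr_iff] at g2
    have g3 := g2 x3 (by rw [hpar]; exact hx3)
    rw [hhalf, halign] at g3
    exact g3
  unfold Dat.pair at hFF
  rw [orr_iff, orr_iff] at hFF
  -- the key equation
  have hkey : lk 0 (lk [] D.pl r.y2) o2 + pkn 12 hh 5 = lk 0 (lk [] D.pl r.y1) o1 + D.bs := by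
    rw [e2v, e1v, hL.bs, pkn_add, pkn_add]
    apply pkn_congr
    intro j hj
    have a2 := l2 j
    show D.PN r.y2 o2 j + (1024 + D.PN r.y1 o1 j - D.PN r.y2 o2 j) = D.PN r.y1 o1 j + 1024
    omega
  have hplt : ∀ y < D.G, ∀ o < D.m, lk 0 (lk [] D.pl y) o < 2 ^ 60 := by
    intro y hy o ho
    rw [hL.pl y hy o ho]
    apply pkn12_lt
    intro j _
    have := PN_le D y o j
    omega
  have hhlt : pkn 12 hh 5 < 2 ^ 60 := by
    apply pkn12_lt
    intro j _
    have := l1 j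
    show 1024 + D.PN r.y1 o1 j - D.PN r.y2 o2 j < 2 ^ 12
    omega
  have hbslt : D.bs < 2 ^ 60 := by
    rw [hL.bs]
    exact pkn12_lt _ (fun _ _ => by norm_num)
  rcases hFF with hfast | hdeg | hslow
  · -- the fast test
    set A : ℕ → ℕ := fun j => if 2 * D.m ≤ j ∧ j < 3 * D.m then
      lk 0 (lk [] D.pl r.y2) (j - 2 * D.m) + 2 ^ 62 else 0 with hA
    have hpa : lk 0 D.pa r.y2 = pkn 64 A (4 * D.m) := by
      rw [hL.pa r.y2 hr.y2, pkn_ext 64 A (3 * D.m) (4 * D.m) (by omega) (by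
        intro j hj1 hj2
        rw [hA]
        simp only
        rw [if_neg (by omega)])]
      unfold pkn
      have e3 : 3 * D.m = 2 * D.m + D.m := by ring
      rw [e3, Finset.sum_range_add, Finset.sum_mul]
      have z1 : ∑ j ∈ range (2 * D.m), A j * 2 ^ (64 * j) = 0 := by
        apply Finset.sum_eq_zero
        intro j hj
        rw [Finset.mem_range] at hj
        rw [hA]
        simp only
        rw [if_neg (by omega)]
        ring
      rw [z1, Nat.zero_add]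
      apply Finset.sum_congr rfl
      intro j hj
      rw [Finset.mem_range] at hj
      rw [hA]
      simp only
      rw [if_pos (by omega), Nat.add_sub_cancel_left, Nat.mul_add, pow_add]
      ring
    rw [hpa, hL.pb r.y1 hr.y1, hL.on, hL.k1, hL.k2] at hfast
    rw [fast_false D.m (4 * D.m) A _ (pkn 12 hh 5) (2 * D.m + o2 - o1) ?_ ?_ (by omega) ?_] at hfast
    · exact absurd hfast (by simp)
    · intro j hj
      rw [hA]
      simp only
      split
      · rename_i hjj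
        have := hplt r.y2 hr.y2 (j - 2 * D.m) (by omega)
        omega
      · omega
    · intro j hj
      have := hplt r.y1 hr.y1 j hj
      show lk 0 (lk [] D.pl r.y1) j + (2 ^ 62 + D.bs) < 2 ^ 63
      omega
    · refine ⟨o1, h1, ?_⟩
      rw [hA]
      simp only
      have e4 : o1 + (2 * D.m + o2 - o1) = 2 * D.m + o2 := by omega
      rw [e4, if_pos (by omega), Nat.add_sub_cancel_left]
      omega
  · -- the degenerate case
    rw [andr_iff, beq_iff, ble_iff, x3i, x0i] at hdeg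
    have b0 : x.f0 = true := by rw [hx.f0, hdeg.1]; rfl
    have b1 : x.f1 = true := by rw [hx.f1, hdeg.1]; rfl
    have b2 : x.f2 = true := by rw [hx.f2, hdeg.1]; rfl
    have c0 := hf0 b0
    have c1 := hf1 b1
    have c2 := hf2 b2
    exact hnd ⟨b0, b1, b2, by omega⟩
  · -- the slow test
    rw [x0i, x3i] at hslow
    have h4 := slow_spec hslow (o1 := o1) (o2 := o2) (by rw [hL.len _ hr.y1]; exact h1)
      (by rw [hL.len _ hr.y2]; exact h2) (by
        change 2 * D.m + o2 - o1 + o1 = 2 * D.m + o2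
        omega) hkey
    refine viol_false ?_ ?_ ?_ h4
    · intro hb; exact hf0 (by rw [hx.f0]; exact hb)
    · intro hb; exact hf1 (by rw [hx.f1]; exact hb)
    · intro hb; exact hf2 (by rw [hx.f2]; exact hb)

/-- the theorem behind the computation -/
theorem main {D : Dat} (h : Good D) (hL : D.chkL = true) {T : Tr}
    (hC : T.allT D.chkR = true) (hS : T.allT D.chkS = true)
    (hA : T.allT (D.chkA T) = true) (hF : T.allT D.chkF = true) (hroot : rootc T = true) :
    Pool.Agent.H257R3.Neck.Avoidable 2 1 5 := by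
  have hLets := Dat.chkL_spec h hL
  refine avoid (w := bw D.u D.L) (B := D.Bf) (m := D.m) ?_
  intro p0 p1 p2 p3 h01 h12 h23 h03
  refine no_zero (v := D.vv) (k := (D.k : ℤ)) (s := (D.s : ℤ)) (H := D.Hf) h.N.m ?_ ?_
    (D.B_spec h.B).2 (D.H_spec h.P h.M h.X h.B h.H h.N.h11).2.2
    (fun x => ∃ r, Tr.In r T ∧ Rep D r x) ?_ ?_ p0 p1 p2 p3 h01 h12 h23 h03
  · have := h.N.k
    exact_mod_cast this
  · positivity
  · exact closure h hC hA hroot
  · rintro x ⟨r, hrT, hx⟩ o0 h0 o1 h1 o2 h2 o3 h3 hf0 hf1 hf2 hnd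
    exact fin_ok h hLets (Dat.chkR_spec (Tr.allT_imp _ _ hC r hrT)) (Tr.allT_imp _ _ hS r hrT)
      (Tr.allT_imp _ _ hF r hrT) hx h0 h1 h2 h3 hf0 hf1 hf2 hnd

end Pool.Agent.Q134.NK
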