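import Pool.Agent.Q134.NK.Core

/-!
Tables and kernel-friendly tests.
-/

set_option autoImplicit false

namespace Pool.Agent.Q134.NK

/-- `∀` over a list -/
noncomputable def allr {α : Type} (p : α → Bool) (l : List α) : Bool :=
  @List.rec α (fun _ => Bool) true (fun a _ ih => @Bool.rec (fun _ => Bool) false ih (p a)) l

lemma allr_iff {α : Type} (p : α → Bool) (l : List α) : allr p l = true ↔ ∀ a ∈ l, p a = true := by
  induction l with
  | nil => simp [allr]
  | cons a t ih =>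
    have h : allr p (a :: t) = @Bool.rec (fun _ => Bool) false (allr p t) (p a) := rfl
    rw [h]
    cases hp : p a
    · simp [hp]
    · simp only [List.mem_cons, forall_eq_or_imp, hp, true_and]
      exact ih

/-- `∃` over a list -/
noncomputable def anyr {α : Type} (p : α → Bool) (l : List α) : Bool :=
  @List.rec α (fun _ => Bool) false (fun a _ ih => @Bool.rec (fun _ => Bool) ih true (p a)) l

lemma anyr_imp {α : Type} (p : α → Bool) (l : List α) (h : anyr p l = true) :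
    ∃ a ∈ l, p a = true := by
  induction l with
  | nil => simp [anyr] at h
  | cons a t ih =>
    have e : anyr p (a :: t) = @Bool.rec (fun _ => Bool) (anyr p t) true (p a) := rfl
    rw [e] at h
    cases hp : p a
    · rw [hp] at h
      obtain ⟨b, hb, hb'⟩ := ih h
      exact ⟨b, List.mem_cons_of_mem _ hb, hb'⟩
    · exact ⟨a, List.mem_cons_self, hp⟩

/-- lookup -/
noncomputable def lk {α : Type} (z : α) (l : List α) : ℕ → α :=
  @List.rec α (fun _ => ℕ → α) (fun _ => z)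
    (fun a _ ih n => @Nat.rec (fun _ => α) a (fun n' _ => ih n') n) l

lemma lk_eq {α : Type} (z : α) (l : List α) (n : ℕ) : lk z l n = l.getD n z := by
  induction l generalizing n with
  | nil => simp [lk]
  | cons a t ih =>
    cases n with
    | zero => rfl
    | succ n => exact ih n

noncomputable def andr (a b : Bool) : Bool := @Bool.rec (fun _ => Bool) false b a

lemma andr_iff (a b : Bool) : andr a b = true ↔ a = true ∧ b = true := by
  cases a <;> simp [andr]

noncomputable def orr (a b : Bool) : Bool := @Bool.rec (fun _ => Bool) b true a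

lemma orr_iff (a b : Bool) : orr a b = true ↔ a = true ∨ b = true := by
  cases a <;> simp [orr]

/-- implication -/
noncomputable def imr (a b : Bool) : Bool := @Bool.rec (fun _ => Bool) true b a

lemma imr_iff (a b : Bool) : imr a b = true ↔ (a = true → b = true) := by
  cases a <;> simp [imr]

/-- bit test -/
noncomputable def bt (x i : ℕ) : Bool := Nat.beq (Nat.land 1 (Nat.shiftRight x i)) 1

lemma bt_eq (x i : ℕ) : bt x i = x.testBit i := by
  unfold bt Nat.testBit
  change Nat.beq (1 &&& (x >>> i)) 1 = (1 &&& (x >>> i) != 0)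
  rw [Nat.one_and_eq_mod_two]
  rcases Nat.mod_two_eq_zero_or_one (x >>> i) with h | h <;> rw [h] <;> rfl

structure En where
  i : ℕ
  v : ℕ

/-- group of entries with a bound -/
structure Gr where
  g : ℕ
  l : List En

/-- contexts in coded form: letters, flags, `t = τ + 2`, packed vector, packed functionals,
packed constant, its parities, alignment constant -/
structure Cx where
  y1 : ℕ
  y2 : ℕ
  y3 : ℕ
  f : ℕ
  t : ℕ
  d : ℕ
  base : ℕ
  cc : ℕ
  cp : ℕ
  e0 : ℕ
  key : ℕ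

/-- search tree -/
inductive Tr where
  | nil : Tr
  | node : Tr → Cx → Tr → Tr

noncomputable def Tr.allT (p : Cx → Bool) (t : Tr) : Bool :=
  @Tr.rec (fun _ => Bool) true (fun _ r _ il ir =>
    @Bool.rec (fun _ => Bool) false (@Bool.rec (fun _ => Bool) false ir il) (p r)) t

noncomputable def Tr.memT (k : ℕ) (q : Cx → Bool) (t : Tr) : Bool :=
  @Tr.rec (fun _ => Bool) false (fun _ r _ il ir =>
    @Bool.rec (fun _ => Bool) (@Bool.rec (fun _ => Bool) ir il (Nat.ble k r.key)) (q r)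
      (Nat.beq k r.key)) t

inductive Tr.In (x : Cx) : Tr → Prop
  | here (l r : Tr) : Tr.In x (Tr.node l x r)
  | left (l r : Tr) (y : Cx) : Tr.In x l → Tr.In x (Tr.node l y r)
  | right (l r : Tr) (y : Cx) : Tr.In x r → Tr.In x (Tr.node l y r)

lemma Tr.allT_imp (p : Cx → Bool) (t : Tr) (h : t.allT p = true) : ∀ x, Tr.In x t → p x = true := by
  induction t with
  | nil => intro x hx; cases hx
  | node l r rt il ir =>
    have e : (Tr.node l r rt).allT p = @Bool.rec (fun _ => Bool) false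
      (@Bool.rec (fun _ => Bool) false (rt.allT p) (l.allT p)) (p r) := rfl
    rw [e] at h
    cases hp : p r
    · rw [hp] at h; cases h
    · rw [hp] at h
      have h' : @Bool.rec (fun _ => Bool) false (rt.allT p) (l.allT p) = true := h
      cases hl : l.allT p
      · rw [hl] at h'; cases h'
      · rw [hl] at h'
        intro x hx
        cases hx with
        | here => exact hp
        | left _ _ _ hx => exact il hl x hx
        | right _ _ _ hx => exact ir h' x hx

lemma Tr.memT_imp (k : ℕ) (q : Cx → Bool) (t : Tr) (h : t.memT k q = true) :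
    ∃ x, Tr.In x t ∧ q x = true := by
  induction t with
  | nil => cases h
  | node l r rt il ir =>
    have e : (Tr.node l r rt).memT k q = @Bool.rec (fun _ => Bool)
      (@Bool.rec (fun _ => Bool) (rt.memT k q) (l.memT k q) (Nat.ble k r.key)) (q r)
      (Nat.beq k r.key) := rfl
    rw [e] at h
    cases hb : Nat.beq k r.key
    · rw [hb] at h
      have h' : @Bool.rec (fun _ => Bool) (rt.memT k q) (l.memT k q) (Nat.ble k r.key) = true := h
      cases hc : Nat.ble k r.key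
      · rw [hc] at h'
        obtain ⟨x, hx, hq⟩ := ir h'
        exact ⟨x, Tr.In.right _ _ _ hx, hq⟩
      · rw [hc] at h'
        obtain ⟨x, hx, hq⟩ := il h'
        exact ⟨x, Tr.In.left _ _ _ hx, hq⟩
    · rw [hb] at h
      exact ⟨r, Tr.In.here _ _, h⟩

/-- the data -/
structure Dat where
  L : ℕ
  m : ℕ
  G : ℕ
  c : ℕ
  s : ℕ
  k : ℕ
  bx : ℕ
  q0 : ℕ
  BB : ℕ
  Bd : ℕ
  BM : ℕ
  top : ℕ
  kk : ℕ
  bs : ℕ
  k1 : ℕ
  k2 : ℕ
  on : ℕ
  v : List ℤ
  X : List (List ℤ)
  H : List (List ℤ)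
  B : List ℕ
  pt : List (List ℕ)
  pi : List (List ℕ)
  ui : List ℕ
  yu : List (List ℕ)
  uy : List (List ℕ)
  Qt : List (List ℕ)
  cn : List (List ℕ)
  rn : List Gr
  rn2 : List (List Gr)
  rr : List (List Gr)
  rr2 : List (List Gr)
  mn : ℕ
  mn2 : List ℕ
  mr : List ℕ
  Xt : List (List ℕ)
  pl : List (List ℕ)
  z3 : List (List (List En))
  pa : List ℕ
  pb : List ℕ

/-! ### the search for near children -/

noncomputable def prn (top s : ℕ) (b : Bool) : Bool :=
  @Bool.rec (fun _ => Bool) true b (Nat.beq (Nat.land s top) top)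

noncomputable def lvg (top s mr : ℕ) (k : ℕ → ℕ → Bool) (l : List Gr) : Bool :=
  allr (fun g => prn top (Nat.add (Nat.add s g.g) mr)
    (allr (fun e => prn top (Nat.add (Nat.add s e.v) mr) (k e.i (Nat.add s e.v))) g.l)) l

/-- field `j` of width 16 -/
noncomputable def f16 (x j : ℕ) : ℕ := Nat.mod (Nat.shiftRight x (Nat.mul 16 j)) 65536

/-- the packed vector of a child before normalisation -/
noncomputable def Dat.cvp (D : Dat) (r : Cx) (i0 i1 i2 i3 : ℕ) : ℕ :=
  Nat.sub (Nat.add (Nat.add (Nat.mul D.c r.d) (lk 0 (lk [] D.Xt 0) i0))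
      (Nat.mul 2 (lk 0 (lk [] D.Xt r.y2) i2)))
    (Nat.add (Nat.add (Nat.mul 2 (lk 0 (lk [] D.Xt r.y1) i1)) (lk 0 (lk [] D.Xt r.y3) i3)) D.kk)

/-- rotation of a packed vector by the permutation with table `l` -/
noncomputable def rotp (l : List ℕ) (x : ℕ) : ℕ :=
  Nat.add (f16 x (lk 0 l 0)) (Nat.mul 65536 (Nat.add (f16 x (lk 0 l 1)) (Nat.mul 65536
    (Nat.add (f16 x (lk 0 l 2)) (Nat.mul 65536 (Nat.add (f16 x (lk 0 l 3)) (Nat.mul 65536
      (f16 x (lk 0 l 4)))))))))

noncomputable def b2n (b : Bool) (n : ℕ) : ℕ := @Bool.rec (fun _ => ℕ) 0 n b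

/-- flags of the child -/
noncomputable def flc (f i0 i1 i2 i3 : ℕ) : ℕ :=
  Nat.add (b2n (andr (bt f 0) (Nat.beq i0 i1)) 1)
    (Nat.add (b2n (andr (bt f 1) (Nat.beq i1 i2)) 2) (b2n (andr (bt f 2) (Nat.beq i2 i3)) 4))

noncomputable def keyf (y1 y2 y3 f t d : ℕ) : ℕ :=
  Nat.add d (Nat.mul 1208925819614629174706176 (Nat.add f (Nat.mul 8 (Nat.add t (Nat.mul 8
    (Nat.add y1 (Nat.mul 128 (Nat.add y2 (Nat.mul 128 y3)))))))))

noncomputable def eqc (y1 y2 y3 f t d : ℕ) (r : Cx) : Bool :=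
  andr (Nat.beq r.y1 y1) (andr (Nat.beq r.y2 y2) (andr (Nat.beq r.y3 y3) (andr (Nat.beq r.f f)
    (andr (Nat.beq r.t t) (Nat.beq r.d d)))))

noncomputable def find (T : Tr) (y1 y2 y3 f t d : ℕ) : Bool :=
  T.memT (keyf y1 y2 y3 f t d) (eqc y1 y2 y3 f t d)

/-- index of the letter `u_{i0}⁻¹ y u_i` -/
noncomputable def Dat.yc (D : Dat) (i0 y i : ℕ) : ℕ :=
  lk 0 (lk [] D.uy i0) (lk 0 (lk [] D.yu y) i)

noncomputable def Dat.ta (D : Dat) (t i0 i2 : ℕ) : ℕ :=
  Nat.add (Nat.add (Nat.add (Nat.mul D.L t) i0) (Nat.mul 2 i2)) 2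

noncomputable def Dat.tb (D : Dat) (i1 i3 : ℕ) : ℕ :=
  Nat.add (Nat.add (Nat.mul 2 D.L) (Nat.mul 2 i1)) i3

noncomputable def Dat.leaf (D : Dat) (T : Tr) (r : Cx) (i0 i1 i2 i3 : ℕ) : Bool :=
  imr (andr (imr (bt r.f 0) (Nat.ble i0 i1)) (andr (imr (bt r.f 1) (Nat.ble i1 i2))
    (andr (imr (bt r.f 2) (Nat.ble i2 i3)) (andr (Nat.ble (D.tb i1 i3) (D.ta r.t i0 i2))
      (Nat.ble (D.ta r.t i0 i2) (Nat.add (D.tb i1 i3) 4))))))
    (find T (D.yc i0 r.y1 i1) (D.yc i0 r.y2 i2) (D.yc i0 r.y3 i3) (flc r.f i0 i1 i2 i3)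
      (Nat.sub (D.ta r.t i0 i2) (D.tb i1 i3))
      (rotp (lk [] D.pt (lk 0 D.ui i0)) (D.cvp r i0 i1 i2 i3)))

/-- all near children of `r` are in `T` -/
noncomputable def Dat.chkA (D : Dat) (T : Tr) (r : Cx) : Bool :=
  lvg D.top r.base (Nat.add (Nat.add D.mn (lk 0 D.mr r.y3)) (lk 0 D.mn2 r.y2))
    (fun i1 s1 => lvg D.top s1 (Nat.add D.mn (lk 0 D.mr r.y3))
      (fun i2 s2 => lvg D.top s2 (lk 0 D.mr r.y3)
        (fun i0 s0 => lvg D.top s0 0 (fun i3 _ => D.leaf T r i0 i1 i2 i3) (lk [] D.rr r.y3))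
        D.rn) (lk [] D.rn2 r.y2)) (lk [] D.rr2 r.y1)

/-! ### the test of a context at the level of the letters -/

/-- the order conditions fail -/
noncomputable def viol (f o0 o1 o2 o3 : ℕ) : Bool :=
  imr (andr (imr (bt f 0) (Nat.ble o0 o1)) (andr (imr (bt f 1) (Nat.ble o1 o2))
    (imr (bt f 2) (Nat.ble o2 o3)))) false

/-- slow test of a pair -/
noncomputable def scan (f o0 o3 h bp : ℕ) (l1 : List ℕ) : List ℕ → ℕ → ℕ → Bool :=
  @List.rec ℕ (fun _ => List ℕ → ℕ → ℕ → Bool) (fun _ _ _ => true)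
    (fun a _ ih l2 o1 o2 => @List.rec ℕ (fun _ => Bool) true (fun b tb _ =>
      @Bool.rec (fun _ => Bool) (ih tb (Nat.succ o1) (Nat.succ o2))
        (andr (viol f o0 o1 o2 o3) (ih tb (Nat.succ o1) (Nat.succ o2)))
        (Nat.beq (Nat.add b h) (Nat.add a bp))) l2) l1

/-- drop -/
noncomputable def drp (l : List ℕ) : ℕ → List ℕ :=
  @List.rec ℕ (fun _ => ℕ → List ℕ) (fun _ => [])
    (fun a t ih n => @Nat.rec (fun _ => List ℕ) (a :: t) (fun n' _ => ih n') n) l

lemma drp_eq (l : List ℕ) (n : ℕ) : drp l n = l.drop n := by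
  induction l generalizing n with
  | nil => simp [drp]
  | cons a t ih =>
    cases n with
    | zero => rfl
    | succ n => exact ih n

noncomputable def slow (f o0 o3 h bp : ℕ) (l1 l2 : List ℕ) (e m : ℕ) : Bool :=
  scan f o0 o3 h bp (drp l1 (Nat.sub m e)) (drp l2 (Nat.sub e m)) (Nat.sub m e) (Nat.sub e m)

noncomputable def fast (h e pa pb on k1 k2 : ℕ) : Bool :=
  Nat.beq (Nat.land (Nat.add (Nat.xor (Nat.add (Nat.shiftRight pa (Nat.mul 64 e)) (Nat.mul h on))
    pb) k1) k2) k2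

/-- test of a pair of offsets -/
noncomputable def Dat.pair (D : Dat) (r : Cx) (h e : ℕ) (x0 x3 : En) : Bool :=
  orr (fast h e (lk 0 D.pa r.y2) (lk 0 D.pb r.y1) D.on D.k1 D.k2)
    (orr (andr (Nat.beq r.f 7) (Nat.ble x3.i x0.i))
      (slow r.f x0.i x3.i h D.bs (lk [] D.pl r.y1) (lk [] D.pl r.y2) e (Nat.mul 2 D.m)))

noncomputable def Dat.chkF (D : Dat) (r : Cx) : Bool :=
  allr (fun p => allr (fun x0 => allr (fun x3 =>
    D.pair r (Nat.shiftRight (Nat.sub (Nat.add (Nat.add r.cc x0.v) D.bs) x3.v) 1)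
      (Nat.shiftRight (Nat.sub (Nat.add r.e0 x3.i) x0.i) 1) x0 x3)
    (lk [] (lk [] D.z3 r.y3) (Nat.xor p r.cp))) (lk [] (lk [] D.z3 0) p)) (List.range 32)

end Pool.Agent.Q134.NK
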